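import Pool.Agent.K1H17.LW.Defs
import Pool.Agent.K1H17.SC.Low2

/-! Covers of `W × ℙ¹ × ... × ℙ¹`: basic facts. -/

set_option autoImplicit false
set_option linter.overlappingInstances false
set_option linter.unusedSectionVars false
set_option linter.unusedVariables false

open FF IntermediateField Polynomial Pool.Agent.W619.PQ Pool.Agent.W619.PL Pool.Agent.W619.TW
  Pool.Agent.W603.LV Pool.Agent.W619.Y Pool.Agent.W672.PG Pool.Agent.W824.PG Pool.Agent.Y174
  Pool.Agent.K1H17.IS Pool.Agent.K1H17.TP Pool.Agent.K1H17.LP Pool.Agent.K1H17.SC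

namespace Pool.Agent.K1H17.LW

section

variable {k : Type} [Field k] [CharZero k] [IsAlgClosed k] {L : Type} [Field L] [Algebra k L]
  {r s : ℕ} {M : IntermediateField k L} {x : Fin r → L} {f : Fin r → Fin 2 → k[X]}
  {A : Fin s → Fin r → Fin 2 → ℤ} {m : Fin s → ℕ} {τ z : Fin s → L}

theorem IsFibreLineCover.f_ne (h : IsFibreLineCover M x f A m τ z) (i c) : f i c ≠ 0 := by
  intro h0
  have := h.deg i c
  rw [h0, natDegree_zero] at this
  omega

theorem IsFibreLineCover.tr (hc : IsFibreLineCover M x f A m τ z) (i : Fin r) :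
    Transcendental k (x i) := by
  have h1 : Transcendental M (x i) := hc.indep.transcendental i
  intro h2
  exact h1 (h2.extendScalars (algebraMap k M).injective)

theorem IsFibreLineCover.line (h : IsFibreLineCover M x f A m τ z) (i) :
    IsLine k (lgen (k := k) (x i)) := line_of (h.tr i)

theorem IsFibreLineCover.aev_ne (h : IsFibreLineCover M x f A m τ z) (i c) :
    aeval (x i) (f i c) ≠ 0 :=
  fun h0 => h.f_ne i c (transcendental_iff.1 (h.tr i) _ h0)

theorem IsFibreLineCover.z_ne (h : IsFibreLineCover M x f A m τ z) (j : Fin s) : z j ≠ 0 := by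
  intro h0
  have h1 := h.root j
  rw [h0, zero_pow (h.pos j).ne'] at h1
  exact mul_ne_zero (h.ne0 j) (Finset.prod_ne_zero_iff.2 fun i _ =>
    Finset.prod_ne_zero_iff.2 fun c _ => zpow_ne_zero _ (h.aev_ne i c)) h1.symm

/-- the fields of the factors -/
abbrev FF0 (M : IntermediateField k L) (x : Fin r → L) : Fin (r + 1) → IntermediateField k L :=
  Fin.cons M (fun i => adjoin k {x i})

theorem IsFibreLineCover.top (h : IsFibreLineCover M x f A m τ z) :
    (⨆ i, FF0 M x i) ⊔ IntermediateField.adjoin k (Set.range z) = ⊤ := by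
  rw [iSup_cons, NN, sup_assoc, ← IntermediateField.adjoin_union, h.gen]

theorem aev_mem_line (a : L) (g : k[X]) : aeval a g ∈ adjoin k {a} := by
  have h1 : aeval a g = (aeval (lgen (k := k) a) g : ↥(adjoin k {a})) := by
    rw [← IntermediateField.coe_val, ← Polynomial.aeval_algHom_apply]
    rfl
  rw [h1]
  exact (aeval (lgen (k := k) a) g : ↥(adjoin k {a})).2

theorem IsFibreLineCover.root_mem (h : IsFibreLineCover M x f A m τ z) (j : Fin s) :
    z j ^ m j ∈ (⨆ i, FF0 M x i) := by
  rw [h.root]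
  refine mul_mem ((le_iSup (FF0 M x) 0) (h.mem j)) (prod_mem fun i _ => prod_mem fun c _ =>
    zpow_mem ((le_iSup (FF0 M x) i.succ) (aev_mem_line (x i) (f i c))) _)

theorem IsFibreLineCover.galois (h : IsFibreLineCover M x f A m τ z) :
    FiniteDimensional ↥(⨆ i, FF0 M x i) L ∧ IsGalois ↥(⨆ i, FF0 M x i) L := by
  refine Pool.Agent.TH122.AB.galois_of_roots (⨆ i, FF0 M x i) (S := Set.range z)
    (Set.finite_range z) (fun L' h1 h2 => ?_) (M := ∏ j, m j)
    (Finset.prod_pos fun j _ => h.pos j) ?_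
  · rw [eq_top_iff, ← h.top]
    exact sup_le h1 (IntermediateField.adjoin_le_iff.2 h2)
  · rintro _ ⟨j, rfl⟩
    obtain ⟨c, hc⟩ := Finset.dvd_prod_of_mem m (Finset.mem_univ j)
    rw [hc, pow_mul]
    exact pow_mem (h.root_mem j) _

theorem IsFibreLineCover.alg (h : IsFibreLineCover M x f A m τ z) :
    Algebra.IsAlgebraic ↥(⨆ i, FF0 M x i) L := by
  have := h.galois.1
  infer_instance

theorem IsFibreLineCover.essL (h : IsFibreLineCover M x f A m τ z)
    (hess : Algebra.EssFiniteType k M) : Algebra.EssFiniteType k L := by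
  have h1 : Algebra.EssFiniteType k ↥(⨆ i, FF0 M x i) := by
    rw [iSup_cons]
    refine essFiniteType_iff.2 (IntermediateField.fg_sup (essFiniteType_iff.1 hess) ?_)
    exact IntermediateField.fg_adjoin_of_finite (Set.finite_range x)
  have := h.galois.1
  exact Algebra.EssFiniteType.comp k ↥(⨆ i, FF0 M x i) L

/-- the elements algebraic over `M (x)` -/
theorem IsFibreLineCover.basis (h : IsFibreLineCover M x f A m τ z) :
    IsTranscendenceBasis M x := by
  refine h.indep.isTranscendenceBasis_iff_isAlgebraic.2 ⟨fun y => ?_⟩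
  set R := Algebra.adjoin M (Set.range x) with hR
  have hx : ∀ i, x i ∈ CF M R := fun i => le_CF (Algebra.subset_adjoin ⟨i, rfl⟩)
  have h0 : (⊤ : IntermediateField k L) ≤ CF M R := by
    rw [← h.gen]
    refine sup_le (base_le_CF M R) ?_
    rw [adjoin_le_iff]
    rintro _ (⟨i, rfl⟩ | ⟨j, rfl⟩)
    · exact hx i
    · have h1 : z j ^ m j ∈ CF M R := by
        rw [h.root j]
        refine mul_mem (base_le_CF M R (h.mem j)) (prod_mem fun i _ => prod_mem fun c _ =>
          zpow_mem ?_ _)
        have e : aeval (x i) (f i c) =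
            ((aeval (⟨x i, hx i⟩ : CF M R) (f i c) : CF M R) : L) :=
          IntermediateField.aeval_coe (CF M R) ⟨x i, hx i⟩ (f i c)
        rw [e]
        exact SetLike.coe_mem _
      exact IsAlgebraic.of_pow (h.pos j) h1
  exact h0 (show y ∈ (⊤ : IntermediateField k L) from trivial)

theorem IsFibreLineCover.total (h : IsFibreLineCover M x f A m τ z) {w0 : ℕ}
    (hM : Algebra.trdeg k M = w0) : Algebra.trdeg k L = (w0 + r : ℕ) := by
  have h2 := h.basis.cardinalMk_eq_trdeg
  rw [← trdeg_add_eq k M (A := L), hM, ← h2]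
  simp

/-- The multiplicities of the `f i c` along a place of `L`. -/
noncomputable def IsFibreLineCover.mlt (h : IsFibreLineCover M x f A m τ z) (w : Place k L)
    (i : Fin r) (c : Fin 2) : ℤ :=
  (pdiv (lgen (k := k) (x i)) (h.line i).tr (f i c) (h.f_ne i c)).ev (fun y => w.ord (y : L))

/-- The multiplicities at a place of the cover. -/
theorem IsFibreLineCover.dvd_place (hc : IsFibreLineCover M x f A m τ z) (w : Place k L)
    (j : Fin s) :
    (m j : ℤ) ∣ w.ord (τ j) + ∑ i, ∑ c, A j i c * hc.mlt w i c := by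
  have h0 := hc.aev_ne
  have h4 : ∀ i c, ((aeval (lgen (k := k) (x i)) (f i c) : ↥(adjoin k {x i})) : L) =
      aeval (x i) (f i c) := fun i c =>
    (Polynomial.aeval_algHom_apply (adjoin k {x i}).val (lgen (k := k) (x i)) (f i c)).symm
  have h1 := congrArg w.ord (hc.root j)
  rw [w.ord_pow, w.ord_mul (hc.ne0 j) (Finset.prod_ne_zero_iff.2 fun i _ =>
      Finset.prod_ne_zero_iff.2 fun c _ => zpow_ne_zero _ (h0 i c)),
    Pool.Agent.W619.PQ.ord_prod _ w _ fun i _ => Finset.prod_ne_zero_iff.2 fun c _ =>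
      zpow_ne_zero _ (h0 i c)] at h1
  obtain ⟨I, hI⟩ : ∃ I : Fin r → ℤ, ∀ i c, w.ord (aeval (x i) (f i c)) =
      hc.mlt w i c + (f i c).natDegree * I i := by
    refine ⟨fun i => (pdiv (lgen (k := k) (x i)) (hc.line i).tr (f i 0) (hc.f_ne i 0)).S.inf'
      (pdiv (lgen (k := k) (x i)) (hc.line i).tr (f i 0) (hc.f_ne i 0)).ne
      (fun y => w.ord (y : L)), fun i c => ?_⟩
    rw [IsFibreLineCover.mlt, DivData.ev, ← h4]
    change _ = w.ord ((aeval (lgen (k := k) (x i)) (f i c) : ↥(adjoin k {x i})) : L) -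
      (f i c).natDegree * (pdiv (lgen (k := k) (x i)) (hc.line i).tr (f i 0)
        (hc.f_ne i 0)).S.inf' (pdiv (lgen (k := k) (x i)) (hc.line i).tr (f i 0)
        (hc.f_ne i 0)).ne (fun y => w.ord (y : L)) + _
    ring
  have h2 : w.ord (τ j) + ∑ i, ∑ c, A j i c * hc.mlt w i c =
      m j * w.ord (z j) - ∑ i, (∑ c, A j i c * (f i c).natDegree) * I i := by
    rw [h1, add_sub_assoc, ← Finset.sum_sub_distrib]
    congr 1
    refine Finset.sum_congr rfl fun i _ => ?_
    rw [ord_prod_zpow w _ _ (h0 i), Finset.sum_mul, ← Finset.sum_sub_distrib]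
    refine Finset.sum_congr rfl fun c _ => ?_
    rw [hI]
    ring
  rw [h2]
  exact dvd_sub (dvd_mul_right _ _) (Finset.dvd_sum fun i _ => (hc.dvd j i).mul_right _)

end

end Pool.Agent.K1H17.LW
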