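import Pool.Agent.K1H17.LP.Fin

/-! Covers of `W × ℙ¹ × ... × ℙ¹` with two types of branch points over each line: definitions and
statements of the pieces. -/

set_option autoImplicit false
set_option linter.overlappingInstances false

open FF IntermediateField Polynomial Pool.Agent.W619.PQ Pool.Agent.W619.TW Pool.Agent.W619.Y
  Pool.Agent.Y174 Pool.Agent.K1H17.IS Pool.Agent.K1H17.TP Pool.Agent.K1H17.LP

namespace Pool.Agent.K1H17.LW

/-- `L` is the field of rational functions of an abelian cover of the product of a variety `W` with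
the function field `M` and of `r` projective lines with the coordinates `x i`, given by the equations
`z j ^ m j = τ j * ∏ i, (f i 0 (x i)) ^ A j i 0 * (f i 1 (x i)) ^ A j i 1` (`j < s`), where the `τ j`
are arbitrary nonzero rational functions on `W`, for each `i` the nonconstant polynomials `f i 0`,
`f i 1` have only simple zeros and no common zeros, and `m j` divides
`A j i 0 * deg (f i 0) + A j i 1 * deg (f i 1)`. So the cover is branched only over divisors which
come from `W` and over the zeros of the `f i 0` and `f i 1`. -/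
structure IsFibreLineCover {k L : Type} [Field k] [Field L] [Algebra k L]
    (M : IntermediateField k L) {r s : ℕ} (x : Fin r → L) (f : Fin r → Fin 2 → k[X])
    (A : Fin s → Fin r → Fin 2 → ℤ) (m : Fin s → ℕ) (τ z : Fin s → L) : Prop where
  indep : AlgebraicIndependent M x
  deg : ∀ i c, 1 ≤ (f i c).natDegree
  sqf : ∀ i, Squarefree (f i 0 * f i 1)
  pos : ∀ j, 0 < m j
  mem : ∀ j, τ j ∈ M
  ne0 : ∀ j, τ j ≠ 0
  root : ∀ j, z j ^ m j = τ j * ∏ i, ∏ c, aeval (x i) (f i c) ^ A j i c
  dvd : ∀ j i, (m j : ℤ) ∣ ∑ c, A j i c * (f i c).natDegree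
  gen : M ⊔ IntermediateField.adjoin k (Set.range x ∪ Set.range z) = ⊤

/-- The cover is branched over the prime divisor `q` (on some projective model of `W`): for some `j`
the order of `τ j` along `q` is not divisible by `m j`. -/
def Branch {k L : Type} [Field k] [Field L] [Algebra k L] (M : IntermediateField k L) {s : ℕ}
    (m : Fin s → ℕ) (τ : Fin s → L) (q : Place k M) : Prop :=
  ∃ j, ∃ t : M, (t : L) = τ j ∧ ¬ (m j : ℤ) ∣ q.ord t

/-- Algebraic independence of functions of two groups of variables. -/
def S_INW : Prop := ∀ (k L : Type) [Field k] [Field L] [Algebra k L] (M : IntermediateField k L)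
  (r h e : ℕ) (x : Fin r → L) (u : Fin h → L) (g : Fin e → L), AlgebraicIndependent M x →
  (∀ l, u l ∈ IntermediateField.adjoin k (Set.range x)) → AlgebraicIndependent k u →
  (∀ l, g l ∈ M) → AlgebraicIndependent k g →
  AlgebraicIndependent k (fun i : Fin (e + h) => Fin.append g u i)

/-- The lower bound. -/
def S_LOW : Prop := ∀ (k L : Type) [Field k] [CharZero k] [IsAlgClosed k] [Field L] [Algebra k L]
  (M : IntermediateField k L) (r s w e : ℕ) (x : Fin r → L) (f : Fin r → Fin 2 → k[X])
  (A : Fin s → Fin r → Fin 2 → ℤ) (m : Fin s → ℕ) (τ z : Fin s → L),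
  IsFibreLineCover M x f A m τ z → Algebra.trdeg k M = w → Algebra.EssFiniteType k M →
  KodTr k M w e → (Polytope A m (fun i c => (f i c).natDegree)).Nonempty →
  KodTr k L (w + r) (e + affDim (Polytope A m fun i c => (f i c).natDegree))

end Pool.Agent.K1H17.LW
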