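import Pool.Agent.K1H17.LW.Ub2

/-! Existence of prime divisors. -/

set_option autoImplicit false
set_option linter.overlappingInstances false

open FF IntermediateField Pool.Agent.W619.PQ

namespace Pool.Agent.K1H17.LW

theorem exists_div {k K : Type} [Field k] [CharZero k] [Field K] [Algebra k K] {n : ℕ}
    (hn : Algebra.trdeg k K = (n + 1 : ℕ)) (hess : Algebra.EssFiniteType k K) :
    ∃ q : Place k K, IsDivisorial q (n + 1) := by
  obtain ⟨y, hy⟩ := Pool.Agent.W636.PG.exists_basis k K (n + 1) hn
  have hy' : AlgebraicIndependent k (fun i : Fin n => y i.castSucc) :=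
    hy.1.comp _ (Fin.castSucc_injective n)
  obtain ⟨F, hF⟩ : ∃ F : IntermediateField k K,
      F = IntermediateField.adjoin k (Set.range fun i : Fin n => y i.castSucc) := ⟨_, rfl⟩
  have hmem : ∀ i : Fin n, y i.castSucc ∈ F := fun i => by
    rw [hF]; exact IntermediateField.subset_adjoin k _ ⟨i, rfl⟩
  have hchar : CharZero F := charZero_of_injective_algebraMap (algebraMap k F).injective
  have htrF : Algebra.trdeg k F = (n : ℕ) := by
    have hb : IsTranscendenceBasis k (fun i : Fin n => (⟨y i.castSucc, hmem i⟩ : F)) := by
      have hind : AlgebraicIndependent k (fun i : Fin n => (⟨y i.castSucc, hmem i⟩ : F)) := by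
        refine AlgebraicIndependent.of_comp (F.val) ?_
        exact hy'
      refine Pool.Agent.R885.basis_of_ind hind ?_
      constructor
      intro z
      have h1 : (⊤ : IntermediateField k F) = IntermediateField.adjoin k
          (Set.range fun i : Fin n => (⟨y i.castSucc, hmem i⟩ : F)) := by
        apply IntermediateField.lift_injective F
        rw [IntermediateField.lift_top, IntermediateField.lift_adjoin]
        rw [← Set.range_comp]
        exact hF
      have h2 : z ∈ IntermediateField.adjoin k
          (Set.range fun i : Fin n => (⟨y i.castSucc, hmem i⟩ : F)) := by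
        rw [← h1]; trivial
      exact isAlgebraic_algebraMap
        (R := IntermediateField.adjoin k
          (Set.range fun i : Fin n => (⟨y i.castSucc, hmem i⟩ : F))) (A := F) ⟨z, h2⟩
    rw [← hb.cardinalMk_eq_trdeg]
    simp
  have htr1 : Algebra.trdeg F K = 1 := by
    have h1 := trdeg_add_eq k F (A := K)
    rw [htrF, hn] at h1
    have h2 : ((n : ℕ) : Cardinal) + Algebra.trdeg F K = (n : ℕ) + 1 := by
      rw [h1]; push_cast; rfl
    exact Cardinal.eq_of_add_eq_add_left h2 (Cardinal.natCast_lt_aleph0)
  have hessF : Algebra.EssFiniteType F K := Algebra.EssFiniteType.of_comp k F K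
  have hff : IsFF F K := ⟨hessF, htr1⟩
  obtain ⟨P, -⟩ := exists_place (k := F) (K := K)
  refine ⟨⟨P.ord, P.ord_zero, P.ord_mul, P.ord_add, fun {c} hc => ?_, P.surj⟩, ?_⟩
  · have h1 : algebraMap k K c = algebraMap F K (algebraMap k F c) := rfl
    rw [h1]
    exact P.ord_const (by simpa using hc)
  · refine ⟨fun i => y i.castSucc, fun p hp => ?_⟩
    have h1 : MvPolynomial.aeval (fun i : Fin n => y i.castSucc) p ≠ 0 := by
      intro h
      exact hp ((algebraicIndependent_iff.1 hy') p h)
    refine ⟨h1, ?_⟩
    have h2 : MvPolynomial.aeval (fun i : Fin n => y i.castSucc) p =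
        algebraMap F K (MvPolynomial.aeval (fun i : Fin n => (⟨y i.castSucc, hmem i⟩ : F)) p) := by
      rw [← MvPolynomial.aeval_algebraMap_apply]
      rfl
    change P.ord _ = 0
    have h3 : MvPolynomial.aeval (fun i : Fin n => (⟨y i.castSucc, hmem i⟩ : F)) p ≠ 0 := by
      intro h
      rw [h, map_zero] at h2
      exact h1 h2
    have h4 := P.ord_const h3
    rw [← h2] at h4
    exact h4

end Pool.Agent.K1H17.LW
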