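import Pool.Agent.K1H17.LW.Defs

/-! Algebraic independence of functions of two groups of variables. -/

set_option autoImplicit false
set_option linter.overlappingInstances false

open IntermediateField

namespace Pool.Agent.K1H17.LW

theorem t_INW : S_INW := by
  intro k L _ _ _ M r h e x u g hx hu1 hu2 hg1 hg2
  have h1 : AlgebraicIndependent k (Sum.elim x g) := by
    refine hg2.sumElim_of_tower (S := M) ?_ hx
    rintro _ ⟨l, rfl⟩
    exact ⟨⟨g l, hg1 l⟩, rfl⟩
  have h2 : AlgebraicIndependent k (Sum.elim g x) := by
    have h3 := h1.comp (Equiv.sumComm (Fin e) (Fin r)) (Equiv.injective _)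
    refine (algebraicIndependent_equiv' (Equiv.refl _) ?_).1 h3
    funext i
    rcases i with i | i <;> rfl
  have h4 := (AlgebraicIndependent.sumElim_iff.1 h2).2
  rw [← IntermediateField.algebraicIndependent_adjoin_iff] at h4
  have h5 : AlgebraicIndependent k (Sum.elim g u) := by
    refine hu2.sumElim_of_tower (S := IntermediateField.adjoin k (Set.range x)) ?_ h4
    rintro _ ⟨l, rfl⟩
    exact ⟨⟨u l, hu1 l⟩, rfl⟩
  refine (algebraicIndependent_equiv' finSumFinEquiv ?_).1 h5
  funext i
  rcases i with i | i
  · simp
  · simp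

end Pool.Agent.K1H17.LW
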