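import Pool.Agent.K1H17.LW.Main
import Pool.Agent.K1H17.LW.Inw
import Pool.Agent.K1H24.LW.Low

/-! Covers of `W × ℙ¹ × ... × ℙ¹` with two types of branch points over each line: the theorems. -/

set_option autoImplicit false
set_option linter.overlappingInstances false
set_option linter.unusedSectionVars false
set_option linter.unusedVariables false

open FF IntermediateField Polynomial Pool.Agent.W619.PQ Pool.Agent.W619.PL Pool.Agent.W619.TW
  Pool.Agent.W603.LV Pool.Agent.W619.Y Pool.Agent.W672.PG Pool.Agent.W824.PG Pool.Agent.Y174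
  Pool.Agent.K1H17.IS Pool.Agent.K1H17.TP Pool.Agent.K1H17.LP Pool.Agent.K1H17.SC

namespace Pool.Agent.K1H17.LW

theorem t_LOW : S_LOW := Pool.Agent.K1H24.LW.t_LOW t_INW

section

variable {k : Type} [Field k] [CharZero k] [IsAlgClosed k] {L : Type} [Field L] [Algebra k L]
  {r s : ℕ} {M : IntermediateField k L} {x : Fin r → L} {f : Fin r → Fin 2 → k[X]}
  {A : Fin s → Fin r → Fin 2 → ℤ} {m : Fin s → ℕ} {τ z : Fin s → L}

/-- Abundance. -/
theorem IsFibreLineCover.abundance (hc : IsFibreLineCover M x f A m τ z) {w e : ℕ}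
    (hM : Algebra.trdeg k M = w) (hess : Algebra.EssFiniteType k M)
    (hW : (w = 0 ∧ e = 0) ∨ KodTr k M w e ∧ (e = w ∨ NumLe k M w (Branch M m τ) e)) :
    (Polytope A m (fun i c => (f i c).natDegree) = ∅ ∧ NumNeg k L (w + r) (fun _ => False)) ∨
    ((Polytope A m (fun i c => (f i c).natDegree)).Nonempty ∧
      KodNum k L (w + r) (e + affDim (Polytope A m fun i c => (f i c).natDegree))) := by
  rcases hW with ⟨hw, he⟩ | ⟨h1, h2⟩
  · subst hw
    subst he
    obtain ⟨z', hz'⟩ := hc.toLine hM
    rw [Nat.zero_add, Nat.zero_add]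
    exact hz'.main
  · refine hc.main t_LOW hM hess h1 ?_
    rcases h2 with h2 | h2
    · subst h2
      exact hc.top_num hM hess
    · exact h2

/-- Nonvanishing. -/
theorem IsFibreLineCover.nonvanishing (hc : IsFibreLineCover M x f A m τ z) {w : ℕ}
    (hM : Algebra.trdeg k M = w) (hess : Algebra.EssFiniteType k M)
    (hκ : ¬ KodairaNeg k M w) :
    (Polytope A m (fun i c => (f i c).natDegree) = ∅ ∧
      KodairaNeg k L (w + r) ∧ NumNeg k L (w + r) (fun _ => False)) ∨
    ((Polytope A m (fun i c => (f i c).natDegree)).Nonempty ∧ ¬ KodairaNeg k L (w + r) ∧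
      KodTr k L (w + r) (affDim (Polytope A m fun i c => (f i c).natDegree))) :=
  hc.nonvan t_LOW hM hess hκ

end

end Pool.Agent.K1H17.LW
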