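import Pool.Agent.K1H17.LW.Zero
import Pool.Agent.K1H17.IS.Uf

/-! Covers of `W × ℙ¹ × ... × ℙ¹`: the Kodaira dimension and the numerical dimension. -/

set_option autoImplicit false
set_option linter.overlappingInstances false
set_option linter.unusedSectionVars false
set_option linter.unusedVariables false

open FF IntermediateField Polynomial Pool.Agent.W619.PQ Pool.Agent.W619.PL Pool.Agent.W619.TW
  Pool.Agent.W603.LV Pool.Agent.W619.Y Pool.Agent.W672.PG Pool.Agent.W824.PG Pool.Agent.Y174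
  Pool.Agent.K1H17.IS Pool.Agent.K1H17.TP Pool.Agent.K1H17.LP Pool.Agent.K1H17.SC

namespace Pool.Agent.K1H17.LW

section

variable {k : Type} [Field k] [CharZero k] [IsAlgClosed k] {L : Type} [Field L] [Algebra k L]
  {r s : ℕ} {M : IntermediateField k L} {x : Fin r → L} {f : Fin r → Fin 2 → k[X]}
  {A : Fin s → Fin r → Fin 2 → ℤ} {m : Fin s → ℕ} {τ z : Fin s → L}

/-- The algebraic independence of `e` functions on a point. -/
theorem kodTr_zero {K : Type} [Field K] [Algebra k K] {e : ℕ} (hK : Algebra.trdeg k K = (0 : ℕ))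
    (h : KodTr k K 0 e) : e = 0 := by
  obtain ⟨m, hm, ω, hω, D, hD, hind⟩ := h
  rw [Nat.cast_zero] at hK
  have halg : Algebra.IsAlgebraic k K := (trdeg_eq_zero_iff (R := k) (A := K)).1 hK
  have h1 := hind.isEmpty_of_isAlgebraic
  by_contra h2
  exact h1.elim ⟨0, Nat.pos_of_ne_zero h2⟩

/-- The numerical part, without a condition on `W`. -/
theorem IsFibreLineCover.neg (hc : IsFibreLineCover M x f A m τ z) {w0 : ℕ}
    (hM : Algebra.trdeg k M = w0) (hess : Algebra.EssFiniteType k M)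
    (hE : Polytope A m (fun i c => (f i c).natDegree) = ∅) :
    NumNeg k L (w0 + r) (fun _ => False) := by
  rcases Nat.eq_zero_or_pos w0 with h0 | h0
  · subst h0
    obtain ⟨z', hz'⟩ := hc.toLine hM
    rcases hz'.main with ⟨-, h2⟩ | ⟨h1, -⟩
    · rwa [Nat.zero_add]
    · rw [hE] at h1
      exact absurd h1 Set.not_nonempty_empty
  · exact (hc.num h0 hM hess (hc.top_num hM hess)).1 hE

/-- Sections without poles. -/
theorem sec_one {K : Type} [Field K] [Algebra k K] {n m' : ℕ}
    {ω : (Fin n → Derivation k K K) → K} (h : IsSec k K n (fun _ => False) {1} m' 0 ω) :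
    IsSec k K n (fun _ => False) {1} m' 1 ω := by
  refine ⟨h.1, fun v hv hb D hD => ?_, fun v hv hb => hb.elim⟩
  rcases h.2.1 v hv hb D hD with h1 | ⟨s, hs, hs0, h1⟩
  · exact Or.inl h1
  · refine Or.inr ⟨s, hs, hs0, ?_⟩
    rw [Finset.mem_singleton] at hs
    subst hs
    rw [v.ord_one, mul_zero] at h1 ⊢
    exact h1

theorem neg_of_num {K : Type} [Field K] [Algebra k K] {n : ℕ} (hn : Algebra.trdeg k K = n)
    (h : NumNeg k K n (fun _ => False)) : KodairaNeg k K n := by
  rw [← kod0_iff]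
  intro h2
  have h3 := Pool.Agent.W300.PG.TRGE.main k K _ _ hn h2
  obtain ⟨m', hm', h4⟩ := h3
  obtain ⟨m0, h5⟩ := h {1}
  have h6 := h4 (m0 + 1) (by omega)
  rw [pow_zero] at h6
  obtain ⟨ω, hω, hsec⟩ := h6
  exact h5 ((m0 + 1) * m') (by nlinarith) ⟨ω, hω, fun l => sec_one (hsec l)⟩

/-- **The dichotomy.** -/
theorem IsFibreLineCover.main (hLow : S_LOW) (hc : IsFibreLineCover M x f A m τ z) {w0 e0 : ℕ}
    (hM : Algebra.trdeg k M = w0) (hess : Algebra.EssFiniteType k M)
    (hκ : KodTr k M w0 e0) (hW : NumLe k M w0 (Branch M m τ) e0) :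
    (Polytope A m (fun i c => (f i c).natDegree) = ∅ ∧ NumNeg k L (w0 + r) (fun _ => False)) ∨
    ((Polytope A m (fun i c => (f i c).natDegree)).Nonempty ∧
      KodNum k L (w0 + r) (e0 + affDim (Polytope A m fun i c => (f i c).natDegree))) := by
  rcases Set.eq_empty_or_nonempty (Polytope A m (fun i c => (f i c).natDegree)) with hE | hne
  · exact Or.inl ⟨hE, hc.neg hM hess hE⟩
  · refine Or.inr ⟨hne, ?_⟩
    have h3 := hLow k L M r s w0 e0 x f A m τ z hc hM hess hκ hne
    refine ⟨h3, Pool.Agent.W300.PG.TRGE.main k L _ _ (hc.total hM) h3, ?_⟩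
    rcases Nat.eq_zero_or_pos w0 with h0 | h0
    · subst h0
      have he := kodTr_zero hM hκ
      subst he
      obtain ⟨z', hz'⟩ := hc.toLine hM
      rcases hz'.main with ⟨h1, -⟩ | ⟨-, h2⟩
      · rw [h1] at hne
        exact absurd hne Set.not_nonempty_empty
      · have h4 := h2.2.2
        rwa [Nat.zero_add, Nat.zero_add]
    · exact (hc.num h0 hM hess hW).2 hne

/-- **Nonvanishing.** -/
theorem IsFibreLineCover.nonvan (hLow : S_LOW) (hc : IsFibreLineCover M x f A m τ z) {w0 : ℕ}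
    (hM : Algebra.trdeg k M = w0) (hess : Algebra.EssFiniteType k M)
    (hκ : ¬ KodairaNeg k M w0) :
    (Polytope A m (fun i c => (f i c).natDegree) = ∅ ∧
      KodairaNeg k L (w0 + r) ∧ NumNeg k L (w0 + r) (fun _ => False)) ∨
    ((Polytope A m (fun i c => (f i c).natDegree)).Nonempty ∧ ¬ KodairaNeg k L (w0 + r) ∧
      KodTr k L (w0 + r) (affDim (Polytope A m fun i c => (f i c).natDegree))) := by
  have hκ0 : KodTr k M w0 0 := by
    by_contra h
    exact hκ (kod0_iff.1 h)
  rcases Set.eq_empty_or_nonempty (Polytope A m (fun i c => (f i c).natDegree)) with hE | hne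
  · have h1 := hc.neg hM hess hE
    exact Or.inl ⟨hE, neg_of_num (hc.total hM) h1, h1⟩
  · have h3 := hLow k L M r s w0 0 x f A m τ z hc hM hess hκ0 hne
    rw [Nat.zero_add] at h3
    refine Or.inr ⟨hne, fun h4 => ?_, h3⟩
    refine kod0_iff.2 h4 ?_
    obtain ⟨m', hm', ω, hω, D, hD, hind⟩ := h3
    refine ⟨m', hm', fun _ => ω 0, fun _ => hω 0, D, fun _ => hD 0, ?_⟩
    exact algebraicIndependent_empty_type_iff.2 (algebraMap k L).injective

end

end Pool.Agent.K1H17.LW
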