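import Pool.Agent.K1H17.LW.Div

/-! Covers of `W × ℙ¹ × ... × ℙ¹`: the numerical dimension. -/

set_option autoImplicit false
set_option linter.overlappingInstances false
set_option linter.unusedSectionVars false
set_option linter.unusedVariables false

open FF IntermediateField Polynomial Pool.Agent.W619.PQ Pool.Agent.W619.PL Pool.Agent.W619.TW
  Pool.Agent.W603.LV Pool.Agent.W619.Y Pool.Agent.W672.PG Pool.Agent.W824.PG Pool.Agent.Y174
  Pool.Agent.K1H17.IS Pool.Agent.K1H17.TP Pool.Agent.K1H17.LP Pool.Agent.K1H17.SC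

namespace Pool.Agent.K1H17.LW

section

variable {k : Type} [Field k] [CharZero k] [IsAlgClosed k] {L : Type} [Field L] [Algebra k L]
  {r s : ℕ} {M : IntermediateField k L} {x : Fin r → L} {f : Fin r → Fin 2 → k[X]}
  {A : Fin s → Fin r → Fin 2 → ℤ} {m : Fin s → ℕ} {τ z : Fin s → L}

theorem IsFibreLineCover.hgen (hc : IsFibreLineCover M x f A m τ z) (σ : L ≃ₐ[k] L)
    (hσ : σ ∈ (⨆ i, FF0 M x i).fixingSubgroup) (hσz : ∀ j, σ (z j) = z j) : σ = 1 := by
  ext y
  have hy : y ∈ (⨆ i, FF0 M x i) ⊔ IntermediateField.adjoin k (Set.range z) := by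
    rw [hc.top]; trivial
  let S : IntermediateField k L := fixedField (Subgroup.zpowers σ)
  have hS : ∀ y, σ y = y → y ∈ S := by
    intro y hy g
    obtain ⟨t, ht⟩ := Subgroup.mem_zpowers_iff.1 g.2
    change (g : L ≃ₐ[k] L) y = y
    rw [← ht]
    have h1 : ∀ t : ℕ, (σ ^ t) y = y := by
      intro t
      induction t with
      | zero => rfl
      | succ t ih => rw [pow_succ', AlgEquiv.mul_apply, ih, hy]
    have h2 : ∀ t : ℕ, (σ ^ t)⁻¹ y = y := by
      intro t
      have h3 := congrArg (fun y => (σ ^ t)⁻¹ y) (h1 t)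
      change ((σ ^ t)⁻¹ * σ ^ t) y = _ at h3
      rw [inv_mul_cancel] at h3
      exact h3.symm
    obtain ⟨t', rfl | rfl⟩ := t.eq_nat_or_neg
    · rw [zpow_natCast]; exact h1 t'
    · rw [zpow_neg, zpow_natCast]; exact h2 t'
  have h1 : (⨆ i, FF0 M x i) ⊔ IntermediateField.adjoin k (Set.range z) ≤ S := by
    refine sup_le (fun y hy => hS y ?_) (IntermediateField.adjoin_le_iff.2 ?_)
    · exact hσ ⟨y, hy⟩
    · rintro _ ⟨j, rfl⟩
      exact hS _ (hσz j)
  exact h1 hy ⟨σ, Subgroup.mem_zpowers σ⟩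

/-- The numerical part. -/
theorem IsFibreLineCover.num (hc : IsFibreLineCover M x f A m τ z) {w0 e0 : ℕ} (hw0 : 1 ≤ w0)
    (hM : Algebra.trdeg k M = w0) (hess : Algebra.EssFiniteType k M)
    (hW : NumLe k M w0 (Branch M m τ) e0) :
    (Polytope A m (fun i c => (f i c).natDegree) = ∅ →
      NumNeg k L (w0 + r) (fun _ => False)) ∧
    ((Polytope A m (fun i c => (f i c).natDegree)).Nonempty → NumLe k L (w0 + r)
      (fun _ => False) (e0 + affDim (Polytope A m fun i c => (f i c).natDegree))) := by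
  classical
  have hMu := Pool.Agent.K1H69.LP.t_MUL
  have hP := Pool.Agent.K1H69.LP.t_PLC
  have hL : Algebra.trdeg k L = (w0 + r : ℕ) := hc.total hM
  have hessL := hc.essL hess
  have hfd := hc.galois.1
  have hgal := hc.galois.2
  obtain ⟨q0, hq0⟩ : ∃ q0 : Place k M, IsDivisorial q0 w0 := by
    obtain ⟨w1, rfl⟩ := Nat.exists_eq_add_of_le' hw0
    exact exists_div hM hess
  obtain ⟨G, hG⟩ : ∃ G : Subgroup (L ≃ₐ[k] L), G = (⨆ i, FF0 M x i).fixingSubgroup := ⟨_, rfl⟩
  obtain ⟨hGfin, hGfix⟩ := Pool.Agent.TH122.AB.fixing_props (⨆ i, FF0 M x i)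
  rw [← hG] at hGfin hGfix
  -- the factors
  have hmem : ∀ i y, (FF0 M x i).val y ∈ fixedField G := by
    intro i y
    rw [hGfix]
    exact le_iSup (FF0 M x) i y.2
  let φ : ∀ i, FF0 M x i →ₐ[k] fixedField G := fun i =>
    codR (FF0 M x i).val (fixedField G) (hmem i)
  have hφ : ∀ i y, ((φ i y : fixedField G) : L) = (y : L) := fun i y => rfl
  have hsup : (⨆ i, (φ i).fieldRange) = ⊤ := by
    refine iSup_codR (fun i => (FF0 M x i).val) (fixedField G) ?_ hmem
    rw [hGfix]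
    exact iSup_congr fun i => (IntermediateField.fieldRange_val (FF0 M x i)).symm
  have hBn : Algebra.trdeg k (fixedField G) = (w0 + r : ℕ) := by
    have halg' := Pool.Agent.W721.PG.EFF2.alg_fixed G
    have h1 := (Pool.Agent.W721.PG.EFF2.exists_basis (fixedField G) (w0 + r) hL).1
    exact h1
  obtain ⟨b, hb⟩ : ∃ b : Fin s → fixedField G, ∀ j, z j ^ m j = (b j : L) :=
    ⟨fun j => ⟨z j ^ m j, by rw [hGfix]; exact hc.root_mem j⟩, fun j => rfl⟩
  obtain ⟨X, hXdef⟩ : ∃ X : ∀ i : Fin r, FF0 M x i.succ, X = fun i => lgen (k := k) (x i) :=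
    ⟨_, rfl⟩
  have hX : ∀ i, IsLine k (X i) := fun i => by rw [hXdef]; exact hc.line i
  have hXL : ∀ i, (φ i.succ (X i) : L) = x i := fun i => by rw [hXdef]; rfl
  have hf := hc.f_ne
  obtain ⟨t, htdef⟩ : ∃ t : Fin s → FF0 M x 0, t = fun j => ⟨τ j, hc.mem j⟩ := ⟨_, rfl⟩
  have ht : ∀ j, (φ 0 (t j) : L) = τ j := fun j => by rw [htdef]; rfl
  have ht0 : ∀ j, φ 0 (t j) ≠ 0 := fun j h => hc.ne0 j (by rw [← ht j, h]; rfl)
  have hb' : ∀ j, b j = φ 0 (t j) * ∏ i : Fin r, ∏ c, φ i.succ (aeval (X i) (f i c)) ^ A j i c := by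
    intro j
    apply Subtype.ext
    rw [← hb, hc.root]
    have h0 : ((φ 0 (t j) * ∏ i : Fin r, ∏ c, φ i.succ (aeval (X i) (f i c)) ^ A j i c :
        fixedField G) : L) = (φ 0 (t j) : L) *
        ((∏ i : Fin r, ∏ c, φ i.succ (aeval (X i) (f i c)) ^ A j i c : fixedField G) : L) := rfl
    rw [h0, ht]
    congr 1
    have h1 : ((∏ i : Fin r, ∏ c, φ i.succ (aeval (X i) (f i c)) ^ A j i c : fixedField G) : L) =
        ∏ i : Fin r, ((∏ c, φ i.succ (aeval (X i) (f i c)) ^ A j i c : fixedField G) : L) :=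
      map_prod (algebraMap (fixedField G) L) _ _
    rw [h1]
    refine Finset.prod_congr rfl fun i _ => ?_
    have h2 : ((∏ c, φ i.succ (aeval (X i) (f i c)) ^ A j i c : fixedField G) : L) =
        ∏ c, ((φ i.succ (aeval (X i) (f i c)) ^ A j i c : fixedField G) : L) :=
      map_prod (algebraMap (fixedField G) L)
        (fun c => φ i.succ (aeval (X i) (f i c)) ^ A j i c) Finset.univ
    rw [h2]
    refine Finset.prod_congr rfl fun c _ => ?_
    have h3 : ((φ i.succ (aeval (X i) (f i c)) ^ A j i c : fixedField G) : L) =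
        ((φ i.succ (aeval (X i) (f i c)) : fixedField G) : L) ^ A j i c :=
      map_zpow₀ (algebraMap (fixedField G) L) _ _
    rw [h3, hφ]
    congr 1
    have h4 : (aeval (X i) (f i c) : L) = aeval ((FF0 M x i.succ).val (X i)) (f i c) := by
      rw [Polynomial.aeval_algHom_apply]
      rfl
    rw [h4]
    congr 1
    rw [← hXL i]
    rfl
  -- ramification
  have hramv : ∀ (v : Place k (fixedField G)) (w : Place k L) (e' N : ℕ), LiesOn w v e' →
      (∀ j, (m j : ℤ) ∣ N * v.ord (φ 0 (t j))) →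
      (∀ j, (m j : ℤ) ∣ N * ∑ i : Fin r, ∑ c, A j i c *
        (pdiv (X i) (hX i).tr (f i c) (hf i c)).ev (fun x => v.ord (φ i.succ x))) → e' ∣ N := by
    intro v w e' N hwv hN0 hN
    refine ram hwv hc.pos hc.z_ne hb (fun σ hσ h => hc.hgen σ (hG ▸ hσ) h) fun j => ?_
    have h0 : ∀ i : Fin r, ∀ c, φ i.succ (aeval (X i) (f i c)) ≠ 0 := fun i c => by
      have := (pdiv (X i) (hX i).tr (f i c) (hf i c)).ne0
      change aeval (X i) (f i c) ≠ 0 at this
      simpa using this
    rw [hb', v.ord_mul (ht0 j) (Finset.prod_ne_zero_iff.2 fun i _ =>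
      Finset.prod_ne_zero_iff.2 fun c _ => zpow_ne_zero _ (h0 i c)), mul_add]
    refine dvd_add (hN0 j) ?_
    exact ord_prod2 v (fun i : Fin r => φ i.succ) (fun i => (hX i).tr) hf N j
      (fun i => hc.dvd j i) (hN j)
  -- the multiplicities
  let Xs : Place k (fixedField G) → Set ℝ := fun v =>
    {y | ∃ (w : Place k L) (e' : ℕ), LiesOn w v e' ∧ y = 1 - 1 / (e' : ℝ)}
  let δ : Place k (fixedField G) → ℝ := fun v => sSup (Xs v)
  have hXbdd : ∀ v, BddAbove (Xs v) := by
    intro v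
    refine ⟨1, ?_⟩
    rintro _ ⟨w, e', h1, rfl⟩
    have h2 : (0 : ℝ) ≤ 1 / (e' : ℝ) := by positivity
    linarith
  have hXne : ∀ v, (Xs v).Nonempty := by
    intro v
    obtain ⟨w0, e0, I, hwv0, -, -⟩ := exists_inertia G v
    exact ⟨_, w0, e0, hwv0, rfl⟩
  have hδle : ∀ v (g : ℕ), 0 < g → (∀ (w : Place k L) (e' : ℕ), LiesOn w v e' → e' ∣ g) →
      δ v ≤ 1 - 1 / (g : ℝ) := by
    intro v g hg hv
    refine csSup_le (hXne v) ?_
    rintro _ ⟨w, e', h1, rfl⟩
    have h2 : (e' : ℝ) ≤ g := by exact_mod_cast Nat.le_of_dvd hg (hv w e' h1)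
    have h3 : (0 : ℝ) < e' := by exact_mod_cast h1.1
    have h4 := one_div_le_one_div_of_le h3 h2
    linarith
  have hδge : ∀ v (w : Place k L) (e' : ℕ), LiesOn w v e' →
      (0 : ℝ) ≤ 1 - e' * (1 - δ v) := by
    intro v w e' h1
    have h2 : 1 - 1 / (e' : ℝ) ≤ δ v := le_csSup (hXbdd v) ⟨w, e', h1, rfl⟩
    have h3 : (0 : ℝ) < e' := by exact_mod_cast h1.1
    have h4 : (e' : ℝ) * (1 - δ v) ≤ e' * (1 / e') :=
      mul_le_mul_of_nonneg_left (by linarith) h3.le
    rw [mul_one_div_cancel h3.ne'] at h4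
    linarith
  choose p hp using fun (i : Fin r) c (t : Zr (f i c)) =>
    (hP k (FF0 M x i.succ) (X i) (hX i)).2.1 t.1
  have hub := neg_num (K := fun i => ↥(FF0 M x i)) (φ := φ) (δ := δ) hBn hM hess hq0 hW hX hf
    hc.deg hc.sqf hsup hp (A := A) hc.pos
    (fun v => csSup_le (hXne v) (by
      rintro _ ⟨w, e', h1, rfl⟩
      have h2 : (0 : ℝ) ≤ 1 / (e' : ℝ) := by positivity
      linarith))
    (B0 := fun v => ∃ j, ¬ (m j : ℤ) ∣ v.ord (φ 0 (t j)))
    (fun v hv hB => by
      obtain ⟨j, hj⟩ := hB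
      exact hj (by rw [hv]; exact dvd_zero _))
    (fun u v hv => by
      constructor
      · rintro ⟨j, hj⟩
        refine ⟨j, t j, by rw [htdef], ?_⟩
        rw [← hv]
        exact hj
      · rintro ⟨j, t', h1, h2⟩
        refine ⟨j, ?_⟩
        rw [hv]
        have h3 : t j = t' := by
          rw [htdef]
          exact Subtype.ext h1.symm
        rw [h3]
        exact h2)
    (fun v hv hB => by
      push Not at hB
      have h1 := hδle v 1 one_pos fun w e' hwv => hramv v w e' 1 hwv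
        (fun j => by rw [Nat.cast_one, one_mul]; exact hB j) fun j => by
        have h2 : ∑ i : Fin r, ∑ c, A j i c *
            (pdiv (X i) (hX i).tr (f i c) (hf i c)).ev (fun x => v.ord (φ i.succ x)) = 0 :=
          Finset.sum_eq_zero fun i _ => Finset.sum_eq_zero fun c _ => by rw [hv i c, mul_zero]
        rw [h2, mul_zero]
        exact dvd_zero _
      simpa using h1)
    (fun ch τ' g lam w hg hadm hw1 hw2 => by
      refine hδle w g hg fun w' e' hwv => hramv w w' e' g hwv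
        (fun j => by rw [hw1, mul_zero]; exact dvd_zero _) fun j => ?_
      have h1 := hadm.2.2 j
      have h2 : (g : ℤ) * ∑ i : Fin r, ∑ c, A j i c *
            (pdiv (X i) (hX i).tr (f i c) (hf i c)).ev (fun x => w.ord (φ i.succ x)) =
          ∑ i, ∑ c, A j i c * (((if c = ch i then g * lam i else 0 : ℕ)) : ℤ) := by
        rw [Finset.mul_sum]
        refine Finset.sum_congr rfl fun i _ => ?_
        rw [Finset.mul_sum]
        refine Finset.sum_congr rfl fun c _ => ?_
        rw [(pdiv (X i) (hX i).tr (f i c) (hf i c)).ev_scale (Int.natCast_nonneg (lam i))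
          (hw2 i), (hMu k (FF0 M x i.succ) (X i) (hX i) (f i c) (hf i c) _).1 _
          (hp i (ch i) (τ' i)), mult_eq (hc.sqf i) (hf i) (τ' i).2]
        by_cases hcc : c = ch i
        · rw [if_pos hcc, if_pos hcc]
          push_cast
          ring
        · rw [if_neg hcc, if_neg hcc]
          simp
      rw [h2]
      exact h1)
  refine ⟨fun hv S => ?_, fun hne S => ?_⟩
  · have h1 := cov_neg hL hessL G δ (fun _ => 0)
      (fun v _ w e' hwv => hδge v w e' hwv) (hub.1 hv)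
    obtain ⟨M0, hM0⟩ := h1 S
    refine ⟨M0, fun M' hM' hI => ?_⟩
    obtain ⟨ω, hω, hsec⟩ := hI
    have h2 := hM0 M' hM' (ω 0) (pair_of_sec hL hessL (Bd := fun _ => False)
      (fun v hv => hv.elim) (fun v _ => rfl) (hsec 0))
    exact hω.ne_zero 0 h2
  · have h3 := cov_num hL hessL G δ (fun _ => 0)
      (fun v _ w e' hwv => hδge v w e' hwv) (hub.2 hne)
    obtain ⟨C, hC⟩ := h3 S
    refine ⟨C, fun M' N hM' hI => hC M' N hM' ?_⟩
    obtain ⟨ω, hω, hsec⟩ := hI
    exact ⟨ω, hω, fun l => pair_of_sec hL hessL (Bd := fun _ => False)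
      (fun v hv => hv.elim) (fun v _ => rfl) (hsec l)⟩

end

end Pool.Agent.K1H17.LW
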