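import Pool.Agent.K1H17.LW.Num

/-! Covers of `W × ℙ¹ × ... × ℙ¹`: the numerical dimension of the base is at most its dimension. -/

set_option autoImplicit false
set_option linter.overlappingInstances false
set_option linter.unusedSectionVars false
set_option linter.unusedVariables false

open FF IntermediateField Polynomial Pool.Agent.W619.PQ Pool.Agent.W619.PL Pool.Agent.W619.TW
  Pool.Agent.W603.LV Pool.Agent.W619.Y Pool.Agent.W672.PG Pool.Agent.W824.PG Pool.Agent.Y174
  Pool.Agent.K1H17.IS Pool.Agent.K1H17.TP Pool.Agent.K1H17.LP Pool.Agent.K1H17.SC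

namespace Pool.Agent.K1H17.LW

section

variable {k : Type} [Field k] [CharZero k] [IsAlgClosed k] {L : Type} [Field L] [Algebra k L]
  {r s : ℕ} {M : IntermediateField k L} {x : Fin r → L} {f : Fin r → Fin 2 → k[X]}
  {A : Fin s → Fin r → Fin 2 → ℤ} {m : Fin s → ℕ} {τ z : Fin s → L}

theorem IsFibreLineCover.top_num (hc : IsFibreLineCover M x f A m τ z) {w0 : ℕ}
    (hM : Algebra.trdeg k M = w0) (hess : Algebra.EssFiniteType k M) :
    NumLe k M w0 (Branch M m τ) w0 := by
  classical
  intro S
  have h1 := Pool.Agent.R885.pair_top hess hM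
    (δ := fun q => if Branch M m τ q then (1 : ℝ) else 0)
    (G := Finset.univ.image fun j : Fin s × Bool =>
      if j.2 then (⟨τ j.1, hc.mem j.1⟩ : M) else (⟨τ j.1, hc.mem j.1⟩ : M)⁻¹) (fun q hq => by
      have hb : Branch M m τ q := by
        by_contra h
        simp only [h, if_false] at hq
        exact lt_irrefl _ hq
      obtain ⟨j, t, ht, hj⟩ := hb
      have h2 : (⟨τ j, hc.mem j⟩ : M) = t := Subtype.ext ht.symm
      have h3 : q.ord t ≠ 0 := fun h => hj (by rw [h]; exact dvd_zero _)
      rcases lt_or_gt_of_ne h3 with h4 | h4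
      · refine ⟨_, Finset.mem_image_of_mem _ (Finset.mem_univ (j, false)), ?_⟩
        simp only [Bool.false_eq_true, if_false]
        rw [h2, q.ord_inv]
        omega
      · refine ⟨_, Finset.mem_image_of_mem _ (Finset.mem_univ (j, true)), ?_⟩
        simp only [if_true]
        rw [h2]
        omega) (fun q => by
      show (if Branch M m τ q then (1 : ℝ) else 0) ≤ 1
      split_ifs <;> norm_num)
  obtain ⟨C, hC⟩ := h1 S
  refine ⟨C, fun m' N hm' hN => ?_⟩
  obtain ⟨ω, hω, hsec⟩ := hN
  exact hC m' N hm' ⟨ω, hω, fun l => pair_of_sec hM hess (fun v hv => if_pos hv)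
    (fun v hv => if_neg hv) (hsec l)⟩

end

end Pool.Agent.K1H17.LW
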