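import Pool.Agent.K1H17.LW.Basic

/-! The upper bound for the number of sections on `W × ℙ¹ × ... × ℙ¹` with a boundary. -/

set_option autoImplicit false
set_option linter.overlappingInstances false
set_option linter.unusedSectionVars false
set_option linter.unusedVariables false

open FF IntermediateField Polynomial Pool.Agent.W619.PQ Pool.Agent.W619.PL Pool.Agent.W619.TW
  Pool.Agent.W603.LV Pool.Agent.W619.Y Pool.Agent.W672.PG Pool.Agent.W824.PG Pool.Agent.Y174
  Pool.Agent.K1H17.IS Pool.Agent.W460.PG.ONE Pool.Agent.K1H17.TP Pool.Agent.K1H17.LP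

namespace Pool.Agent.K1H17.LW

section

variable {k : Type} [Field k] [CharZero k] [IsAlgClosed k] {r s : ℕ}
  {L : Type} [Field L] [Algebra k L] {K : Fin (r + 1) → Type} [∀ i, Field (K i)]
  [∀ i, Algebra k (K i)] {φ : ∀ i, K i →ₐ[k] L}

/-- the dimensions of the factors -/
abbrev dm (w0 r : ℕ) : Fin (r + 1) → ℕ := Fin.cons w0 (fun _ => 1)

theorem dm_sum (w0 r : ℕ) : w0 + r = ∑ i, dm w0 r i := by
  rw [Fin.sum_univ_succ]
  simp [dm]

/-- the index types of the points -/
abbrev TT {r : ℕ} (f : Fin r → Fin 2 → k[X]) (ch : Fin r → Fin 2) : Fin (r + 1) → Type :=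
  Fin.cons Unit (fun i => Zr (f i (ch i)))

/-- The upper bound. -/
theorem ub_main {w0 e0 : ℕ} (hL : Algebra.trdeg k L = (w0 + r : ℕ))
    (hK0 : Algebra.trdeg k (K 0) = w0)
    (hKe0 : Algebra.EssFiniteType k (K 0)) {q0 : Place k (K 0)} (hq0 : IsDivisorial q0 w0)
    {bd0 : Place k (K 0) → Prop} (hW : NumLe k (K 0) w0 bd0 e0)
    {X : ∀ i : Fin r, K i.succ} (hX : ∀ i, IsLine k (X i))
    {f : Fin r → Fin 2 → k[X]} (hf : ∀ i c, f i c ≠ 0) (hd : ∀ i c, 1 ≤ (f i c).natDegree)
    (hsq : ∀ i, Squarefree (f i 0 * f i 1)) (hsup : (⨆ i, (φ i).fieldRange) = ⊤)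
    {p : ∀ (i : Fin r) c, Zr (f i c) → Place k (K i.succ)}
    (hp : ∀ i c t, AtPt (X i) (p i c t) t.1)
    {A : Fin s → Fin r → Fin 2 → ℤ} {m : Fin s → ℕ} {δ : Place k L → ℝ} (hδ1 : ∀ w, δ w ≤ 1)
    {B0 : Place k L → Prop} (hB1 : ∀ w : Place k L, (∀ x, w.ord (φ 0 x) = 0) → ¬ B0 w)
    (hB2 : ∀ (u : Place k (K 0)) (w : Place k L), (∀ x, w.ord (φ 0 x) = u.ord x) →
      (B0 w ↔ bd0 u))
    (hδ0 : ∀ w : Place k L,
      (∀ i c, (pdiv (X i) (hX i).tr (f i c) (hf i c)).ev (fun x => w.ord (φ i.succ x)) = 0) →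
      ¬ B0 w → δ w ≤ 0)
    (hδm : ∀ (ch : Fin r → Fin 2) (τ : ∀ i, Zr (f i (ch i))) (g : ℕ) (lam : Fin r → ℕ)
      (w : Place k L), 0 < g → Adm A m (fun i c => if c = ch i then g * lam i else 0) →
      (∀ x, w.ord (φ 0 x) = 0) → (∀ i x, w.ord (φ i.succ x) = lam i * (p i (ch i) (τ i)).ord x) →
      δ w ≤ 1 - 1 / (g : ℝ)) :
    ∃ Q : ℕ, ∀ (S : Finset L) (V : Finset (Fin r → Fin 2 → ℕ)), (∀ v ∈ V, Adm A m v) →
      ∃ (C R : ℝ) (C0 : ℕ), ∀ M N : ℕ, 1 ≤ M →
        HasIndep k L (w0 + r) N (PairSec k L (w0 + r) δ S M 1) →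
        ∃ F : Finset (Fin r → ℤ), N ≤ Q * (C0 * M ^ e0) * F.card ∧
          ∀ t ∈ F, (∀ i, |(t i : ℝ)| ≤ R * M) ∧
          ∀ v ∈ V, (M : ℝ) - C ≤ ∑ i, ((v i 0 : ℝ) * t i + (v i 1 : ℝ) *
            ((M * (∑ c, ((f i c).natDegree : ℝ) - 2) - (f i 0).natDegree * t i) /
              (f i 1).natDegree)) := by
  classical
  have hP := Pool.Agent.K1H69.LP.t_PLC
  have hMu := Pool.Agent.K1H69.LP.t_MUL
  have hDg := Pool.Agent.K1H60.LP.t_DEG hP
  have hA := Pool.Agent.K1H65.LP.t_ADP2
  have hR := Pool.Agent.K1H24.LP.t_RES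
  have hn := dm_sum w0 r
  have hK : ∀ i, Algebra.trdeg k (K i) = (dm w0 r i : ℕ) := fun i =>
    Fin.cases (motive := fun i => Algebra.trdeg k (K i) = (dm w0 r i : ℕ)) hK0
      (fun i => line_trdeg (hX i)) i
  have hKe : ∀ i, Algebra.EssFiniteType k (K i) := fun i =>
    Fin.cases (motive := fun i => Algebra.EssFiniteType k (K i)) hKe0
      (fun i => line_ess (hX i)) i
  have hess : Algebra.EssFiniteType k L := ess_of_sup φ hKe hsup
  obtain ⟨y0, hy0⟩ := Pool.Agent.W636.PG.exists_basis k (K 0) w0 hK0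
  obtain ⟨y, hyd⟩ : ∃ y : ∀ i, Fin (dm w0 r i) → K i, y =
      fun i => Fin.cases (motive := fun i => Fin (dm w0 r i) → K i) y0 (fun i _ => X i) i :=
    ⟨_, rfl⟩
  have hy : ∀ i, IsTranscendenceBasis k (y i) := fun i => by
    rw [hyd]
    exact Fin.cases (motive := fun i => IsTranscendenceBasis k
      (Fin.cases (motive := fun i => Fin (dm w0 r i) → K i) y0 (fun i _ => X i) i)) hy0
      (fun i => line_basis (hX i)) i
  have hys : ∀ i : Fin r, y i.succ = fun _ => X i := fun i => by rw [hyd]; rfl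
  have hfin' : ∀ (i : Fin r) (S : Finset (K i.succ)) (M : ℕ), 1 ≤ M →
      Module.Finite k (VV k (bd (X i) (f i)) S M 1 (y i.succ)) := fun i S M hM => by
    rw [hys]; exact line_fin hP (hX i) (hf i) S M hM
  obtain ⟨Y, hY, hfrm, hkun⟩ := kun (r + 1) L K φ (dm w0 r) (w0 + r) hn hKe hK hL hsup y hy
  obtain ⟨E, hE⟩ := Pool.Agent.W636.PG.exists_duals k L (w0 + r) Y hY
  have hTf : ∀ i c, Finite (Zr (f i c)) := fun i c => zr_finite (hf i c)
  have hTn : ∀ i c, Nonempty (Zr (f i c)) := fun i c => zr_nonempty (hd i c)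
  have hTft : ∀ i c, Fintype (Zr (f i c)) := fun i c => Fintype.ofFinite _
  have hdiv : ∀ (i : Fin r) (q : Place k (K i.succ)), IsDivisorial q 1 :=
    fun i => (hP k (K i.succ) (X i) (hX i)).2.2.2.2.2.1
  choose Dl hDl1 hDl2 hΔ hDl3 using fun i c (t : Zr (f i c)) =>
    exists_lf (line_trdeg (hX i)) (line_ess (hX i)) (hdiv i (p i c t))
  obtain ⟨Dl0, hDl01, hDl02, hΔ00, -⟩ := exists_lf hK0 hKe0 hq0
  have hΔ0 : ∀ i c t, (Matrix.of fun l c' => Dl i c t l (y i.succ c')).det ≠ 0 :=
    fun i c t => hΔ i c t (y i.succ) (hy i.succ)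
  have hΔ1 : (Matrix.of fun l c' => Dl0 l (y 0 c')).det ≠ 0 := hΔ00 (y 0) (hy 0)
  -- the value of a form
  have hform : ∀ (m : ℕ) (ω : (Fin (w0 + r) → Derivation k L L) → L),
      IsPluriForm k L (w0 + r) m ω →
      ω = fun D => ω E * (Matrix.of fun i j => D i (Y j)).det ^ m := by
    intro m ω hω
    funext D
    rw [Pool.Agent.W636.PG.form_eq k L (w0 + r) m Y hY E hE ω hω D, mul_comm]
  -- monomial places
  have hmono : ∀ v : Fin r → Fin 2 → ℕ, Adm A m v → ∃ (ch : Fin r → Fin 2) (g : ℕ)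
      (lam : Fin r → ℕ) (w : (∀ i, Zr (f i (ch i))) → Place k L), 0 < g ∧
      (∀ i c, v i c = if c = ch i then g * lam i else 0) ∧
      (∀ τ, IsMono φ (w0 + r) (fun i => Fin.cases (motive := fun i => Place k (K i)) q0
        (fun i => p i (ch i) (τ i)) i) (Fin.cons 0 lam) (w τ)) ∧
      ∀ τ, δ (w τ) ≤ 1 - 1 / (g : ℝ) := by
    intro v hv
    obtain ⟨ch, hch⟩ : ∃ ch : Fin r → Fin 2, ∀ i c, c ≠ ch i → v i c = 0 := by
      refine ⟨fun i => if v i 1 = 0 then 0 else 1, fun i c hc => ?_⟩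
      change c ≠ if v i 1 = 0 then 0 else 1 at hc
      rcases hv.2.1 i with h0 | h0
      · by_cases h1 : v i 1 = 0
        · rw [if_pos h1] at hc
          obtain rfl : c = 1 := by omega
          exact h1
        · rw [if_neg h1] at hc
          obtain rfl : c = 0 := by omega
          exact h0
      · rw [if_pos h0] at hc
        obtain rfl : c = 1 := by omega
        exact h0
    obtain ⟨g, hg⟩ : ∃ g : ℕ, g = Finset.univ.gcd fun i => v i (ch i) := ⟨_, rfl⟩
    have hgd : ∀ i, g ∣ v i (ch i) := fun i => by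
      rw [hg]; exact Finset.gcd_dvd (Finset.mem_univ i)
    choose lam hlam using hgd
    have hg0 : 0 < g := by
      rcases Nat.eq_zero_or_pos g with h0 | h0
      · exfalso
        apply hv.1
        funext i c
        by_cases hc : c = ch i
        · rw [hc, hlam i, h0, zero_mul]
          rfl
        · exact hch i c hc
      · exact h0
    have hlam1 : ∀ d : ℕ, (∀ i, d ∣ lam i) → d = 1 := by
      intro d hd
      have h1 : g * d ∣ g := by
        conv_rhs => rw [hg]
        refine Finset.dvd_gcd fun i _ => ?_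
        rw [hlam i]
        exact mul_dvd_mul_left g (hd i)
      have h2 : g * d ∣ g * 1 := by rwa [mul_one]
      exact Nat.dvd_one.1 (Nat.dvd_of_mul_dvd_mul_left hg0 h2)
    choose w hw using fun τ : (∀ i, Zr (f i (ch i))) => mono (r + 1) L K φ (dm w0 r) hK
      (by rw [hL, ← hn]) hsup (fun i => Fin.cases (motive := fun i => Place k (K i)) q0
        (fun i => p i (ch i) (τ i)) i)
      (fun i => Fin.cases (motive := fun i => IsDivisorial (Fin.cases
        (motive := fun i => Place k (K i)) q0 (fun i => p i (ch i) (τ i)) i) (dm w0 r i)) hq0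
        (fun i => hdiv i _) i) (Fin.cons 0 lam)
      (fun d hd => hlam1 d fun i => by simpa using hd i.succ)
    rw [← hn] at hw
    have hvv : ∀ i c, v i c = if c = ch i then g * lam i else 0 := by
      intro i c
      by_cases hc : c = ch i
      · rw [if_pos hc, hc, hlam]
      · rw [if_neg hc, hch i c hc]
    refine ⟨ch, g, lam, w, hg0, hvv, hw, fun τ => hδm ch τ g lam (w τ) hg0 ?_ (fun x => ?_)
      (fun i x => ?_)⟩
    · have h3 : (fun i c => if c = ch i then g * lam i else 0) = v :=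
        funext fun i => funext fun c => (hvv i c).symm
      rw [h3]
      exact hv
    · have h1 := (hw τ).ord 0 x
      simpa using h1
    · have h1 := (hw τ).ord i.succ x
      simpa using h1
  -- the boundary
  obtain ⟨D, hDdef⟩ : ∃ D : ∀ i : Fin r, Fin 2 → DivData (K i.succ),
      D = fun i c => pdiv (X i) (hX i).tr (f i c) (hf i c) := ⟨_, rfl⟩
  have hbdi : ∀ (i : Fin r) (q : Place k (K i.succ)),
      bd (X i) (f i) q ↔ ∃ c, (D i c).ev q.ord ≠ 0 := by
    intro i q
    rw [hDdef]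
    exact bd_iff hP hMu (hX i) (hf i) q
  obtain ⟨Bd, hBd⟩ : ∃ Bd : Place k L → Prop,
      Bd = fun w => B0 w ∨ ∃ i c, (D i c).ev (fun x => w.ord (φ i.succ x)) ≠ 0 := ⟨_, rfl⟩
  have hev0 : ∀ (i : Fin r) c (w : Place k L), (∀ x, w.ord (φ i.succ x) = 0) →
      (D i c).ev (fun x => w.ord (φ i.succ x)) = 0 := by
    intro i c w hw
    have := (D i c).ev_scale (o := fun x => w.ord (φ i.succ x)) (o' := fun _ => 0) le_rfl
      (fun x => by rw [mul_zero]; exact hw x)
    rwa [zero_mul] at this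
  obtain ⟨Bdi, hBdi⟩ : ∃ Bdi : ∀ i, Place k (K i) → Prop, Bdi =
      fun i => Fin.cases (motive := fun i => Place k (K i) → Prop) bd0
        (fun i => bd (X i) (f i)) i := ⟨_, rfl⟩
  have H1 : ∀ w : Place k L, (∀ i x, w.ord (φ i x) = 0) → ¬ Bd w := by
    intro w hw hb
    rw [hBd] at hb
    rcases hb with hb | ⟨i, c, hi⟩
    · exact hB1 w (hw 0) hb
    · exact hi (hev0 i c w (hw i.succ))
  have H2 : ∀ i (u : Place k (K i)) (w : Place k L), (∀ x, w.ord (φ i x) = u.ord x) →
      (∀ i', i' ≠ i → ∀ x, w.ord (φ i' x) = 0) → (Bd w ↔ Bdi i u) := by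
    intro i
    refine Fin.cases (motive := fun i => ∀ (u : Place k (K i)) (w : Place k L),
      (∀ x, w.ord (φ i x) = u.ord x) → (∀ i', i' ≠ i → ∀ x, w.ord (φ i' x) = 0) →
      (Bd w ↔ Bdi i u)) ?_ (fun i => ?_) i
    · intro u w h1 h2
      rw [hBd, hBdi]
      change _ ↔ bd0 u
      rw [← hB2 u w h1]
      constructor
      · rintro (h3 | ⟨i', c, h3⟩)
        · exact h3
        · exact absurd (hev0 i' c w (h2 i'.succ (Fin.succ_ne_zero i'))) h3
      · exact fun h3 => Or.inl h3
    · intro u w h1 h2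
      have h3 : (fun x => w.ord (φ i.succ x)) = u.ord := funext h1
      rw [hBd, hBdi]
      change _ ↔ bd (X i) (f i) u
      rw [hbdi]
      constructor
      · rintro (h4 | ⟨i', c, hi'⟩)
        · exact absurd h4 (hB1 w (h2 0 (Fin.succ_ne_zero i).symm))
        · by_cases hii : i' = i
          · subst hii
            rw [h3] at hi'
            exact ⟨c, hi'⟩
          · exact absurd (hev0 i' c w (h2 i'.succ fun h => hii (Fin.succ_injective _ h))) hi'
      · rintro ⟨c, h4⟩
        refine Or.inr ⟨i, c, ?_⟩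
        rw [h3]
        exact h4
  have hsecL : ∀ (S : Finset L) (m : ℕ) (ω : (Fin (w0 + r) → Derivation k L L) → L),
      PairSec k L (w0 + r) δ S m 1 ω → IsSec k L (w0 + r) Bd S m 1 ω := by
    intro S m ω hω
    refine sec_of_pair hL hess hδ1 (fun w hw => hδ0 w (fun i c => ?_) ?_) hω
    · rw [hBd, hDdef] at hw
      by_contra h0
      exact hw (Or.inr ⟨i, c, h0⟩)
    · rw [hBd] at hw
      exact fun h => hw (Or.inl h)
  refine ⟨∏ i, Fintype.card (Zr (f i 0)), fun S V hV => ?_⟩
  obtain ⟨b0, S', hb0, hspan⟩ := hkun Bd Bdi H1 H2 S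
  choose cc hcc using fun i : Fin r => hDg k (K i.succ) (X i) (hX i) (f i) (hsq i) (S' i.succ)
  have hCC : ∀ v : Fin r → Fin 2 → ℕ, ∃ C : ℝ, Adm A m v → ∀ (M : ℕ) (G : L),
      PairSec k L (w0 + r) δ S M 1 (fun D => G * (Matrix.of fun i j => D i (Y j)).det ^ M) →
      ∀ (ι : Fin (r + 1) → Type) [∀ i, Fintype (ι i)] (b : ∀ i, ι i → K i) (oz : ι 0 → ℤ)
      (o : ∀ i : Fin r, Fin 2 → ι i.succ → ℤ),
      AdpT (fun _ : Unit => q0) (fun _ => M * q0.ord (Matrix.of fun l c' => Dl0 l (y 0 c')).det)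
        (b 0) oz →
      (∀ i c, AdpT (p i c)
        (fun t => M * (p i c t).ord (Matrix.of fun l c' => Dl i c t l (y i.succ c')).det)
        (b i.succ) (o i c)) →
      ∀ c : (∀ i, ι i) → k, b0 * G = ∑ J, c J • ∏ i, φ i (b i (J i)) → ∀ J, c J ≠ 0 →
        (M : ℝ) - C ≤ ∑ i : Fin r, ∑ c, (v i c : ℝ) * o i c (J i.succ) := by
    intro v
    by_cases hv : Adm A m v
    · obtain ⟨ch, g, la, w, hg, hgl, hw, hδw⟩ := hmono v hv
      have hTTf : ∀ i, Finite (TT f ch i) := fun i =>
        Fin.cases (motive := fun i => Finite (TT f ch i)) (inferInstanceAs (Finite Unit))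
          (fun i => hTf i (ch i)) i
      obtain ⟨pp, hpp⟩ : ∃ pp : ∀ i, TT f ch i → Place k (K i), pp =
        fun i => Fin.cases (motive := fun i => TT f ch i → Place k (K i)) (fun _ => q0)
          (fun i t => p i (ch i) t) i := ⟨_, rfl⟩
      obtain ⟨DD, hDD⟩ : ∃ DD : ∀ i, TT f ch i → Fin (dm w0 r i) → Derivation k (K i) (K i), DD =
        fun i => Fin.cases (motive := fun i => TT f ch i → Fin (dm w0 r i) →
          Derivation k (K i) (K i)) (fun _ => Dl0) (fun i t => Dl i (ch i) t) i := ⟨_, rfl⟩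
      obtain ⟨C, hC⟩ := est (T := TT f ch) (p := pp) hL hess hfrm DD
        (fun i => by
          rw [hpp, hDD]
          exact Fin.cases (motive := fun i => ∀ t l z, (Fin.cases
            (motive := fun i => TT f ch i → Place k (K i)) (fun _ => q0)
            (fun i t => p i (ch i) t) i t : Place k (K i)).Reg (Fin.cases
            (motive := fun i => TT f ch i → Fin (dm w0 r i) → Derivation k (K i) (K i))
            (fun _ => Dl0) (fun i t => Dl i (ch i) t) i t l z / z)) (fun _ => hDl02)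
            (fun i t => hDl2 i (ch i) t) i)
        (fun i => by
          rw [hDD]
          exact Fin.cases (motive := fun i => ∀ t, (Matrix.of fun l c => Fin.cases
            (motive := fun i => TT f ch i → Fin (dm w0 r i) → Derivation k (K i) (K i))
            (fun _ => Dl0) (fun i t => Dl i (ch i) t) i t l (y i c)).det ≠ 0) (fun _ => hΔ1)
            (fun i t => hΔ0 i (ch i) t) i)
        (lam := Fin.cons 0 la) (w := fun τ => w fun i => τ i.succ)
        (fun τ => by
          have h1 := hw fun i => τ i.succ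
          have h2 : (fun i => pp i (τ i)) = (fun i => Fin.cases (motive := fun i => Place k (K i))
              q0 (fun i => p i (ch i) (τ i.succ)) i) := by
            rw [hpp]
            funext i
            refine Fin.cases ?_ (fun i => ?_) i
            · rfl
            · rfl
          rw [h2]
          exact h1) hg (fun τ => hδw _) S hb0
      refine ⟨C, fun _ M G hsec ι _ b oz o hbz hb c hc J hJ => ?_⟩
      have h1 := hC M G hsec ι b
        (fun i => Fin.cases (motive := fun i => ι i → ℤ) oz (fun i => o i (ch i)) i)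
        (fun i => by
          rw [hpp, hDD]
          refine Fin.cases (motive := fun i => AdpT (Fin.cases
            (motive := fun i => TT f ch i → Place k (K i)) (fun _ => q0)
            (fun i t => p i (ch i) t) i) (fun t => M * (Fin.cases
            (motive := fun i => TT f ch i → Place k (K i)) (fun _ => q0)
            (fun i t => p i (ch i) t) i t : Place k (K i)).ord (Matrix.of fun l c => Fin.cases
            (motive := fun i => TT f ch i → Fin (dm w0 r i) → Derivation k (K i) (K i))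
            (fun _ => Dl0) (fun i t => Dl i (ch i) t) i t l (y i c)).det) (b i)
            (Fin.cases (motive := fun i => ι i → ℤ) oz (fun i => o i (ch i)) i)) ?_ (fun i => ?_) i
          · exact hbz
          · exact hb i (ch i)) c hc J hJ
      refine h1.trans (le_of_eq ?_)
      rw [Fin.sum_univ_succ]
      simp only [Fin.cons_zero, mul_zero, Nat.cast_zero, zero_mul, zero_add, Fin.cons_succ]
      refine Finset.sum_congr rfl fun i _ => ?_
      rw [Finset.sum_eq_single (ch i)]
      · rw [hgl i, if_pos rfl]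
        rfl
      · intro c _ hc
        rw [hgl i, if_neg hc, Nat.cast_zero, zero_mul]
      · intro h
        exact absurd (Finset.mem_univ _) h
    · exact ⟨0, fun h => absurd h hv⟩
  choose CC hCC using hCC
  -- the lower bound for the orders
  obtain ⟨low, hlow⟩ : ∃ low : Fin r → Fin 2 → ℝ, ∀ i c, low i c =
      ∑ t, ∑ s ∈ S' i.succ, |((p i c t).ord s : ℝ)| := ⟨_, fun i c => rfl⟩
  have hlow0 : ∀ i c, 0 ≤ low i c := fun i c => by rw [hlow]; positivity
  obtain ⟨al, hal⟩ : ∃ al : Fin r → ℝ, ∀ i, al i = ∑ c, ((f i c).natDegree : ℝ) - 2 :=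
    ⟨_, fun i => rfl⟩
  have hd0 : ∀ i c, (1 : ℝ) ≤ (f i c).natDegree := fun i c => by exact_mod_cast hd i c
  obtain ⟨CV, hCV⟩ : ∃ CV : (Fin r → Fin 2 → ℕ) → ℝ, ∀ v, CV v = |CC v| +
      ∑ i, (v i 1 : ℝ) * (|cc i| / (f i 1).natDegree) := ⟨_, fun v => rfl⟩
  have hCV0 : ∀ v, 0 ≤ CV v := fun v => by rw [hCV]; positivity
  obtain ⟨Ri, hRi⟩ : ∃ Ri : Fin r → ℝ, ∀ i, Ri i = low i 0 + (|al i| + |cc i| +
      (f i 1).natDegree * low i 1) := ⟨_, fun v => rfl⟩
  have hRi0 : ∀ i, 0 ≤ Ri i := fun i => by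
    rw [hRi]
    have := hlow0 i 0
    have := hlow0 i 1
    positivity
  obtain ⟨C0, hC0⟩ := hW (S' 0)
  refine ⟨∑ v ∈ V, CV v, ∑ i, Ri i, C0, fun M N hM hN => ?_⟩
  have hM1 : (1 : ℝ) ≤ M := by exact_mod_cast hM
  have hfd := fun i => hfin' i (S' i.succ) M hM
  choose ι hι b o0 o1 hadp0 hadp1 hbV hbspan using fun i : Fin r =>
    hA k (K i.succ) (Zr (f i 0)) (Zr (f i 1)) (p i 0)
      (fun t => M * (p i 0 t).ord (Matrix.of fun l c => Dl i 0 t l (y i.succ c)).det) (p i 1)
      (fun t => M * (p i 1 t).ord (Matrix.of fun l c => Dl i 1 t l (y i.succ c)).det)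
      (VV k (bd (X i) (f i)) (S' i.succ) M 1 (y i.succ))
  obtain ⟨o, ho⟩ : ∃ o : ∀ i : Fin r, Fin 2 → ι i → ℤ, o = fun i => ![o0 i, o1 i] := ⟨_, rfl⟩
  -- the first factor
  have hfd0 := (finrank_VV bd0 (S' 0) M 1 (y 0) (hy 0) (C0 * M ^ e0) fun N hN => hC0 M N hM hN).1
  obtain ⟨ιz, hιz, bz, oz, hadpz, hbVz, hbspanz⟩ := exists_adpT_basis (fun _ : Unit => q0)
    (fun _ => M * q0.ord (Matrix.of fun l c' => Dl0 l (y 0 c')).det)
    (VV k bd0 (S' 0) M 1 (y 0))
  have hcz : Fintype.card ιz ≤ C0 * M ^ e0 := by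
    have h1 := finrank_VV bd0 (S' 0) M 1 (y 0) (hy 0) (C0 * M ^ e0) fun N hN => hC0 M N hM hN
    have h2 : LinearIndependent k (fun l => (⟨bz l, hbVz l⟩ : VV k bd0 (S' 0) M 1 (y 0))) := by
      refine LinearIndependent.of_comp (Submodule.subtype _) ?_
      exact hadpz.lin
    exact h2.fintype_card_le_finrank.trans h1.2
  have hadp : ∀ i c, AdpT (p i c)
      (fun t => M * (p i c t).ord (Matrix.of fun l c' => Dl i c t l (y i.succ c')).det)
      (b i) (o i c) := by
    intro i
    rw [ho]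
    exact Fin.forall_fin_two.2 ⟨hadp0 i, hadp1 i⟩
  have hlog : ∀ i c l t, LogGe 1 (p i c t)
      (fun D => b i l * (Matrix.of fun i' j => D i' (y i.succ j)).det ^ M) (o i c l) := by
    intro i c l t
    refine hDl3 i c t M _ _ (pluri_det _ _) ?_
    right
    have h1 := (hadp i c).le l t
    have h2 : (p i c t).ord (b i l * (Matrix.of fun l c' => Dl i c t l (y i.succ c')).det ^ M) =
        (p i c t).ord (b i l) +
          M * (p i c t).ord (Matrix.of fun l c' => Dl i c t l (y i.succ c')).det := by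
      rw [(p i c t).ord_mul ((hadp i c).ne l) (pow_ne_zero _ (hΔ0 i c t)), (p i c t).ord_pow]
    rw [← h2] at h1
    exact_mod_cast h1
  have hob : ∀ i c l, -low i c ≤ o i c l := by
    intro i c l
    have h3 : ∀ t : Zr (f i c), -low i c ≤ ((p i c t).ord (b i l) +
        M * (p i c t).ord (Matrix.of fun l c' => Dl i c t l (y i.succ c')).det : ℤ) := by
      intro t
      have h2 : (p i c t).ord (b i l *
            (Matrix.of fun l c' => Dl i c t l (y i.succ c')).det ^ M) =
          (p i c t).ord (b i l) +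
            M * (p i c t).ord (Matrix.of fun l c' => Dl i c t l (y i.succ c')).det := by
        rw [(p i c t).ord_mul ((hadp i c).ne l) (pow_ne_zero _ (hΔ0 i c t)), (p i c t).ord_pow]
      rw [← h2]
      have h4 : IsSec k (K i.succ) 1 (bd (X i) (f i)) (S' i.succ) M 1
          (fun D => b i l * (Matrix.of fun i' j => D i' (y i.succ j)).det ^ M) := hbV i l
      rcases h4.2.2 (p i c t) (hdiv i _) ⟨c, t.1, hp i c t, t.2⟩ (Dl i c t) (hDl2 i c t) with
        h5 | ⟨e, he, he0, h5⟩
      · exact absurd h5 (mul_ne_zero ((hadp i c).ne l) (pow_ne_zero _ (hΔ0 i c t)))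
      · have h6 : |((p i c t).ord e : ℝ)| ≤ low i c := by
          rw [hlow]
          refine (Finset.single_le_sum (f := fun s => |((p i c t).ord s : ℝ)|)
            (fun s _ => abs_nonneg _) he).trans ?_
          exact Finset.single_le_sum (f := fun t => ∑ s ∈ S' i.succ, |((p i c t).ord s : ℝ)|)
            (fun t _ => by positivity) (Finset.mem_univ t)
        have h7 : -|((p i c t).ord e : ℝ)| ≤ (p i c t).ord e := neg_abs_le _
        rw [Nat.cast_one, one_mul] at h5
        have h8 : (((p i c t).ord e : ℤ) : ℝ) ≤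
            ((p i c t).ord (b i l *
              (Matrix.of fun l c' => Dl i c t l (y i.succ c')).det ^ M) : ℤ) := by
          exact_mod_cast h5
        linarith
    have h4 := (hadp i c).adp (Pi.single l 1) ⌈-low i c⌉ (fun t => by
      have h5 : ∑ i', (Pi.single l (1 : k) : ι i → k) i' • b i i' = b i l := by
        rw [Finset.sum_eq_single l]
        · rw [Pi.single_eq_same, one_smul]
        · intro l' _ hl'
          rw [Pi.single_eq_of_ne hl', zero_smul]
        · intro h
          exact absurd (Finset.mem_univ _) h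
      rw [h5]
      right
      have := Int.ceil_le.2 (h3 t)
      omega) l (by rw [Pi.single_eq_same]; exact one_ne_zero)
    exact (Int.le_ceil _).trans (by exact_mod_cast h4)
  have hdegb : ∀ i l, ∑ c, ((f i c).natDegree : ℝ) * o i c l ≤ M * al i + cc i := by
    intro i l
    obtain ⟨t⟩ := hTn i 0
    rw [hal]
    refine hcc i M _ (fun c => (o i c l : ℝ)) (hbV i l) (fun c a q hq ha => ?_) fun h0 => ?_
    · have h1 : q = p i c ⟨a, ha⟩ :=
        (hP k (K i.succ) (X i) (hX i)).2.2.2.1 q _ a hq (hp i c ⟨a, ha⟩)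
      rw [h1]
      exact hlog i c l ⟨a, ha⟩
    · have h2 := congrFun h0 (Dl i 0 t)
      exact mul_ne_zero ((hadp i 0).ne l) (pow_ne_zero _ (hΔ0 i 0 t)) h2
  -- the families
  obtain ⟨IT, hIT⟩ : ∃ IT : Fin (r + 1) → Type, IT = Fin.cons ιz ι := ⟨_, rfl⟩
  subst hIT
  let hITf : ∀ i, Fintype ((Fin.cons ιz ι : Fin (r + 1) → Type) i) := fun i =>
    Fin.cases (motive := fun i => Fintype ((Fin.cons ιz ι : Fin (r + 1) → Type) i)) hιz hι i
  obtain ⟨bb, hbb⟩ : ∃ bb : ∀ i, (Fin.cons ιz ι : Fin (r + 1) → Type) i → K i, bb = fun i =>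
      Fin.cases (motive := fun i => (Fin.cons ιz ι : Fin (r + 1) → Type) i → K i) bz b i :=
    ⟨_, rfl⟩
  obtain ⟨ω, hω, hsec⟩ := hN
  have hbbspan : ∀ i, Submodule.span k (Set.range (bb i)) = VV k (Bdi i) (S' i) M 1 (y i) := by
    intro i
    rw [hbb, hBdi]
    refine Fin.cases (motive := fun i => Submodule.span k (Set.range (Fin.cases
      (motive := fun i => (Fin.cons ιz ι : Fin (r + 1) → Type) i → K i) bz b i)) =
      VV k (Fin.cases (motive := fun i => Place k (K i) → Prop) bd0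
        (fun i => bd (X i) (f i)) i) (S' i) M 1 (y i)) ?_ (fun i => ?_) i
    · exact hbspanz
    · exact hbspan i
  have hex : ∀ l, ∃ c : (∀ i, (Fin.cons ιz ι : Fin (r + 1) → Type) i) → k,
      b0 * ω l E = ∑ J, c J • ∏ i, φ i (bb i (J i)) ∧
      ∀ J, c J ≠ 0 → ∀ v, Adm A m v →
        (M : ℝ) - CC v ≤ ∑ i : Fin r, ∑ c, (v i c : ℝ) * o i c (J i.succ) := by
    intro l
    have h1 := hform M (ω l) (hsec l).1
    have h2 : ω l E ∈ VV k Bd S M 1 Y := by
      change IsSec k L (w0 + r) Bd S M 1 _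
      rw [← h1]
      exact hsecL S M (ω l) (hsec l)
    obtain ⟨c, hc⟩ := expand_prod bb hbbspan (hspan M _ h2)
    refine ⟨c, hc, fun J hJ v hv => ?_⟩
    refine hCC v hv M (ω l E) (by rw [← h1]; exact hsec l) _ bb oz o ?_ ?_ c hc J hJ
    · rw [hbb]
      exact hadpz
    · rw [hbb]
      exact hadp
  obtain ⟨JJ, hJJ⟩ : ∃ JJ : Finset (∀ i, (Fin.cons ιz ι : Fin (r + 1) → Type) i),
      ∀ J, J ∈ JJ ↔ ∀ v ∈ V,
      (M : ℝ) - CC v ≤ ∑ i : Fin r, ∑ c, (v i c : ℝ) * o i c (J i.succ) :=
    ⟨Finset.univ.filter fun J => ∀ v ∈ V,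
      (M : ℝ) - CC v ≤ ∑ i : Fin r, ∑ c, (v i c : ℝ) * o i c (J i.succ),
      fun J => by simp⟩
  have hind := indep_coef hY hE hb0 hω fun l => (hsec l).1
  have hspan' : ∀ l, b0 * ω l E ∈ Submodule.span k
      (Set.range fun J : JJ => ∏ i, φ i (bb i (J.1 i))) := by
    intro l
    obtain ⟨c, hc, hJ⟩ := hex l
    rw [hc]
    refine Submodule.sum_mem _ fun J _ => ?_
    by_cases hJ0 : c J = 0
    · rw [hJ0, zero_smul]
      exact zero_mem _
    · refine Submodule.smul_mem _ _ (Submodule.subset_span ?_)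
      exact ⟨⟨J, (hJJ J).2 fun v hv => hJ J hJ0 v (hV v hv)⟩, rfl⟩
  have hN1 : N ≤ JJ.card := by
    have := card_of_span hind hspan'
    rwa [Fintype.card_coe] at this
  refine ⟨JJ.image fun J i => o i 0 (J i.succ), hN1.trans ?_, ?_⟩
  · refine Finset.card_le_mul_card_image _ _ fun t _ => ?_
    obtain ⟨FL, hFL⟩ : ∃ FL : ∀ i : Fin r, Finset (ι i), ∀ i l, l ∈ FL i ↔ o i 0 l = t i :=
      ⟨fun i => Finset.univ.filter fun l => o i 0 l = t i, fun i l => by simp⟩
    have h1 : ({J ∈ JJ | (fun i => o i 0 (J i.succ)) = t} : Finset _) ⊆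
        Fintype.piFinset fun i => (Fin.cases (motive := fun i =>
          Finset ((Fin.cons ιz ι : Fin (r + 1) → Type) i)) (Finset.univ : Finset ιz)
          (fun i => FL i) i) := by
      intro J hJ
      rw [Finset.mem_filter] at hJ
      rw [Fintype.mem_piFinset]
      intro i
      refine Fin.cases (motive := fun i => J i ∈ (Fin.cases (motive := fun i =>
          Finset ((Fin.cons ιz ι : Fin (r + 1) → Type) i)) (Finset.univ : Finset ιz)
          (fun i => FL i) i)) ?_
          (fun i => ?_) i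
      · exact Finset.mem_univ (α := ιz) _
      · exact (hFL i _).2 (congrFun hJ.2 i)
    refine (Finset.card_le_card h1).trans ?_
    rw [Fintype.card_piFinset, Fin.prod_univ_succ, mul_comm]
    refine Nat.mul_le_mul ?_ ?_
    · refine Finset.prod_le_prod' fun i _ => ?_
      exact hR k (K i.succ) (Zr (f i 0)) (p i 0) _ (fun t x hx =>
        (hP k (K i.succ) (X i) (hX i)).2.2.2.2.2.2 (p i 0 t) x hx) (ι i) (b i) (o i 0)
        (hadp i 0) (t i) (FL i) fun l hl => (hFL i l).1 hl
    · exact hcz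
  · intro t ht
    obtain ⟨J, hJ, rfl⟩ := Finset.mem_image.1 ht
    rw [hJJ] at hJ
    refine ⟨fun i => ?_, fun v hv => ?_⟩
    · have h1 := hob i 0 (J i.succ)
      have h2 := hob i 1 (J i.succ)
      have h3 := hdegb i (J i.succ)
      rw [Fin.sum_univ_two] at h3
      have h4 : Ri i * M ≤ (∑ i, Ri i) * M :=
        mul_le_mul_of_nonneg_right (Finset.single_le_sum (fun i _ => hRi0 i)
          (Finset.mem_univ i)) (by linarith)
      refine le_trans ?_ h4
      have h5 := hlow0 i 0
      have h6 := hlow0 i 1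
      have h7 := hd0 i 0
      have h8 := hd0 i 1
      have h9 : (M : ℝ) * al i ≤ M * |al i| := mul_le_mul_of_nonneg_left (le_abs_self _) (by linarith)
      have h10 : cc i ≤ |cc i| := le_abs_self _
      have h11 : |cc i| ≤ |cc i| * M := le_mul_of_one_le_right (abs_nonneg _) hM1
      have h12 : -(((f i 1).natDegree : ℝ) * low i 1) ≤
          (f i 1).natDegree * o i 1 (J i.succ) := by
        have := mul_le_mul_of_nonneg_left h2 (by linarith : (0 : ℝ) ≤ (f i 1).natDegree)
        linarith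
      have h13 : ((f i 1).natDegree : ℝ) * low i 1 ≤ (f i 1).natDegree * low i 1 * M :=
        le_mul_of_one_le_right (by positivity) hM1
      have h14 : low i 0 ≤ low i 0 * M := le_mul_of_one_le_right h5 hM1
      have h15 : ((f i 0).natDegree : ℝ) * o i 0 (J i.succ) ≤ (|al i| + |cc i| +
          (f i 1).natDegree * low i 1) * M := by nlinarith
      have h16 : (0 : ℝ) ≤ (|al i| + |cc i| + (f i 1).natDegree * low i 1) * M := by positivity
      have h17 : (o i 0 (J i.succ) : ℝ) ≤
          (|al i| + |cc i| + (f i 1).natDegree * low i 1) * M := by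
        by_cases hs : (o i 0 (J i.succ) : ℝ) ≤ 0
        · linarith
        · push Not at hs
          nlinarith
      rw [hRi, abs_le]
      constructor <;> nlinarith
    · have h1 := hJ v hv
      have h2 : ∑ i : Fin r, ∑ c, (v i c : ℝ) * o i c (J i.succ) ≤
          ∑ i : Fin r, ((v i 0 : ℝ) * o i 0 (J i.succ) +
          (v i 1 : ℝ) * ((M * al i - (f i 0).natDegree * o i 0 (J i.succ)) /
            (f i 1).natDegree)) +
          ∑ i, (v i 1 : ℝ) * (|cc i| / (f i 1).natDegree) := by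
        rw [← Finset.sum_add_distrib]
        refine Finset.sum_le_sum fun i _ => ?_
        have h3 := hdegb i (J i.succ)
        rw [Fin.sum_univ_two] at h3 ⊢
        have h8 : (0 : ℝ) < (f i 1).natDegree := lt_of_lt_of_le one_pos (hd0 i 1)
        have h9 : (o i 1 (J i.succ) : ℝ) ≤ (M * al i - (f i 0).natDegree * o i 0 (J i.succ)) /
            (f i 1).natDegree + |cc i| / (f i 1).natDegree := by
          rw [← add_div, le_div_iff₀ h8]
          have := le_abs_self (cc i)
          linarith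
        have h10 := mul_le_mul_of_nonneg_left h9 (Nat.cast_nonneg (α := ℝ) (v i 1))
        rw [mul_add] at h10
        linarith
      have h3 : CV v ≤ ∑ v ∈ V, CV v := Finset.single_le_sum (fun v _ => hCV0 v) hv
      rw [hCV] at h3
      have h4 := le_abs_self (CC v)
      simp only [← hal]
      linarith

end

end Pool.Agent.K1H17.LW
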