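import Pool.Agent.K1H17.LW.Ub

/-! The numerical dimension of `W × ℙ¹ × ... × ℙ¹` with a boundary. -/

set_option autoImplicit false
set_option linter.overlappingInstances false
set_option linter.unusedSectionVars false
set_option linter.unusedVariables false

open FF IntermediateField Polynomial Pool.Agent.W619.PQ Pool.Agent.W619.PL Pool.Agent.W619.TW
  Pool.Agent.W603.LV Pool.Agent.W619.Y Pool.Agent.W672.PG Pool.Agent.W824.PG Pool.Agent.Y174
  Pool.Agent.K1H17.IS Pool.Agent.W460.PG.ONE Pool.Agent.K1H17.TP Pool.Agent.K1H17.LP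

namespace Pool.Agent.K1H17.LW

section

variable {k : Type} [Field k] [CharZero k] [IsAlgClosed k] {r s : ℕ}
  {L : Type} [Field L] [Algebra k L] {K : Fin (r + 1) → Type} [∀ i, Field (K i)]
  [∀ i, Algebra k (K i)] {φ : ∀ i, K i →ₐ[k] L}

theorem neg_num {w0 e0 : ℕ} (hL : Algebra.trdeg k L = (w0 + r : ℕ))
    (hK0 : Algebra.trdeg k (K 0) = w0)
    (hKe0 : Algebra.EssFiniteType k (K 0)) {q0 : Place k (K 0)} (hq0 : IsDivisorial q0 w0)
    {bd0 : Place k (K 0) → Prop} (hW : NumLe k (K 0) w0 bd0 e0)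
    {X : ∀ i : Fin r, K i.succ} (hX : ∀ i, IsLine k (X i))
    {f : Fin r → Fin 2 → k[X]} (hf : ∀ i c, f i c ≠ 0) (hd : ∀ i c, 1 ≤ (f i c).natDegree)
    (hsq : ∀ i, Squarefree (f i 0 * f i 1)) (hsup : (⨆ i, (φ i).fieldRange) = ⊤)
    {p : ∀ (i : Fin r) c, Zr (f i c) → Place k (K i.succ)}
    (hp : ∀ i c t, AtPt (X i) (p i c t) t.1)
    {A : Fin s → Fin r → Fin 2 → ℤ} {m : Fin s → ℕ} (hm : ∀ j, 0 < m j)
    {δ : Place k L → ℝ} (hδ1 : ∀ w, δ w ≤ 1)
    {B0 : Place k L → Prop} (hB1 : ∀ w : Place k L, (∀ x, w.ord (φ 0 x) = 0) → ¬ B0 w)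
    (hB2 : ∀ (u : Place k (K 0)) (w : Place k L), (∀ x, w.ord (φ 0 x) = u.ord x) →
      (B0 w ↔ bd0 u))
    (hδ0 : ∀ w : Place k L,
      (∀ i c, (pdiv (X i) (hX i).tr (f i c) (hf i c)).ev (fun x => w.ord (φ i.succ x)) = 0) →
      ¬ B0 w → δ w ≤ 0)
    (hδm : ∀ (ch : Fin r → Fin 2) (τ : ∀ i, Zr (f i (ch i))) (g : ℕ) (lam : Fin r → ℕ)
      (w : Place k L), 0 < g → Adm A m (fun i c => if c = ch i then g * lam i else 0) →
      (∀ x, w.ord (φ 0 x) = 0) → (∀ i x, w.ord (φ i.succ x) = lam i * (p i (ch i) (τ i)).ord x) →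
      δ w ≤ 1 - 1 / (g : ℝ)) :
    (Polytope A m (fun i c => (f i c).natDegree) = ∅ → NegB k L (w0 + r) δ) ∧
    ((Polytope A m (fun i c => (f i c).natDegree)).Nonempty →
      PairNum k L (w0 + r) δ (e0 + affDim (Polytope A m fun i c => (f i c).natDegree))) := by
  classical
  obtain ⟨Q, hQ⟩ := ub_main hL hK0 hKe0 hq0 hW hX hf hd hsq hsup hp hδ1 hB1 hB2 hδ0 hδm
  obtain ⟨V, hV, hPol⟩ := polytope_data (A := A) (d := fun i c => (f i c).natDegree) hm hd
  refine ⟨fun hE S => ?_, fun hne S => ?_⟩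
  · obtain ⟨C, R, C0, hCR⟩ := hQ S V hV
    have h0 : Pol (fun v : V => ca (fun i c => (f i c).natDegree) v.1)
        (fun v : V => cb (fun i c => (f i c).natDegree) v.1) = ∅ := by
      rw [hPol] at hE
      exact Set.image_eq_empty.1 hE
    obtain ⟨M0, hM0⟩ := Pool.Agent.K1H24.LP.t_EMP r V _ _ h0 C
    refine ⟨M0 + 1, fun M hM ω hω => ?_⟩
    by_contra hω0
    obtain ⟨F, hF1, hF2⟩ := hCR M 1 (by omega) ⟨fun _ => ω, by
      rw [Fintype.linearIndependent_iff]
      intro g hg i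
      rw [Fin.sum_univ_one] at hg
      rcases smul_eq_zero.1 hg with h | h
      · obtain rfl : i = 0 := Subsingleton.elim _ _
        exact h
      · exact absurd h hω0, fun _ => hω⟩
    have hF : F.Nonempty := by
      rw [← Finset.card_pos]
      by_contra h
      have h1 : F.card = 0 := by omega
      rw [h1, mul_zero] at hF1
      omega
    obtain ⟨t, ht⟩ := hF
    obtain ⟨v, hv⟩ := hM0 M (by omega) t
    have h1 := real_ineq v.1 M C t ((hF2 t ht).2 v.1 v.2)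
    linarith
  · obtain ⟨C, R, C0, hCR⟩ := hQ S V hV
    have h0 : (Pol (fun v : V => ca (fun i c => (f i c).natDegree) v.1)
        (fun v : V => cb (fun i c => (f i c).natDegree) v.1)).Nonempty := by
      rw [hPol] at hne
      exact Set.image_nonempty.1 hne
    obtain ⟨C', hC'⟩ := Pool.Agent.K1H36.LP.t_CNT r V _ _ h0 C R
    refine ⟨Q * C0 * C', fun M N hM hN => ?_⟩
    obtain ⟨F, hF1, hF2⟩ := hCR M N hM hN
    have h1 := hC' M hM F fun t ht => ⟨(hF2 t ht).1, fun v =>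
      real_ineq v.1 M C t ((hF2 t ht).2 v.1 v.2)⟩
    rw [hPol, affDim_image]
    refine hF1.trans ((Nat.mul_le_mul_left _ h1).trans (le_of_eq ?_))
    rw [pow_add]
    ring

end

end Pool.Agent.K1H17.LW
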