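import Pool.Agent.K1H17.LW.Top

/-! Covers of `W × ℙ¹ × ... × ℙ¹`: the case of a point `W`. -/

set_option autoImplicit false
set_option linter.overlappingInstances false
set_option linter.unusedSectionVars false
set_option linter.unusedVariables false

open FF IntermediateField Polynomial Pool.Agent.W619.PQ Pool.Agent.W619.PL Pool.Agent.W619.TW
  Pool.Agent.W603.LV Pool.Agent.W619.Y Pool.Agent.W672.PG Pool.Agent.W824.PG Pool.Agent.Y174
  Pool.Agent.K1H17.IS Pool.Agent.K1H17.TP Pool.Agent.K1H17.LP Pool.Agent.K1H17.SC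

namespace Pool.Agent.K1H17.LW

section

variable {k : Type} [Field k] [CharZero k] [IsAlgClosed k] {L : Type} [Field L] [Algebra k L]
  {r s : ℕ} {M : IntermediateField k L} {x : Fin r → L} {f : Fin r → Fin 2 → k[X]}
  {A : Fin s → Fin r → Fin 2 → ℤ} {m : Fin s → ℕ} {τ z : Fin s → L}

theorem IsFibreLineCover.toLine (hc : IsFibreLineCover M x f A m τ z)
    (hM : Algebra.trdeg k M = (0 : ℕ)) : ∃ z' : Fin s → L, IsLineCover x f A m z' := by
  have halg : Algebra.IsAlgebraic k M := by
    rw [Nat.cast_zero] at hM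
    exact (trdeg_eq_zero_iff (R := k) (A := M)).1 hM
  have hbij : ∀ t : M, ∃ c : k, algebraMap k L c = t := by
    intro t
    obtain ⟨c, hc⟩ := (IsAlgClosed.algebraMap_bijective_of_isIntegral (k := k) (K := M)).2 t
    refine ⟨c, ?_⟩
    rw [← hc]
    rfl
  choose c hcc using fun j => hbij ⟨τ j, hc.mem j⟩
  have hcτ : ∀ j, algebraMap k L (c j) = τ j := hcc
  choose d hd using fun j => IsAlgClosed.exists_pow_nat_eq (c j) (hc.pos j)
  have hd0 : ∀ j, d j ≠ 0 := by
    intro j h0
    have h1 := hd j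
    rw [h0, zero_pow (hc.pos j).ne'] at h1
    apply hc.ne0 j
    rw [← hcτ, ← h1, map_zero]
  have hdL : ∀ j, algebraMap k L (d j) ≠ 0 := fun j => by simpa using hd0 j
  have hMbot : M = ⊥ := by
    rw [eq_bot_iff]
    intro y hy
    obtain ⟨c, hc⟩ := hbij ⟨y, hy⟩
    exact ⟨c, hc⟩
  refine ⟨fun j => (algebraMap k L (d j))⁻¹ * z j, ?_, ?_, hc.deg, hc.sqf, hc.pos, fun j => ?_,
    hc.dvd, ?_⟩
  · have := hc.total hM
    rwa [Nat.zero_add] at this
  · exact hc.indep.restrictScalars (algebraMap k M).injective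
  · rw [mul_pow, hc.root, inv_pow, ← map_pow, hd, hcτ, ← mul_assoc, inv_mul_cancel₀ (hc.ne0 j),
      one_mul]
  · rw [eq_top_iff, ← hc.gen, hMbot]
    refine sup_le bot_le ?_
    rw [IntermediateField.adjoin_le_iff]
    rintro _ (⟨i, rfl⟩ | ⟨j, rfl⟩)
    · exact IntermediateField.subset_adjoin k _ (Or.inl ⟨i, rfl⟩)
    · have h1 : (algebraMap k L (d j))⁻¹ * z j ∈ IntermediateField.adjoin k (Set.range x ∪
          Set.range fun j => (algebraMap k L (d j))⁻¹ * z j) :=
        IntermediateField.subset_adjoin k _ (Or.inr ⟨j, rfl⟩)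
      have h2 : z j = algebraMap k L (d j) * ((algebraMap k L (d j))⁻¹ * z j) := by
        rw [← mul_assoc, mul_inv_cancel₀ (hdL j), one_mul]
      rw [h2]
      exact mul_mem (IntermediateField.algebraMap_mem _ _) h1

end

end Pool.Agent.K1H17.LW
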